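import Pool.Agent.H17V.Defs
import Pool.Agent.H17V.GermT
import Pool.Agent.H17N.ResU
import Pool.Agent.EG.Bad

/-!
# H17V BadV: all but finitely many values are good

* `good_near`: let `σ, τ` be a chart at `x₀`, `g` the germ of `u` (`exists_lu`, H17N/ResU), `h` a local equation of `X ∖ K` (`opn.eqn`; `h ∘ σ` is analytic, not identically `0` near `0`, because otherwise `q ∘ σ` would be `0` near `0`: `sub`, `thin`), `Q = q ∘ σ`, not identically `0`.  For `x ∈ X` near `x₀`: `x = a • σ p`, `p = τ x` near `0` (`right`), `a ≠ 0`.  If `u x - u x₀ ∉ Λ` then `g p ≠ 0`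
  (`tor.smul`).  Chart at `x`: `a • σ (p + ·)` (`IsChart.near`, `IsChart.scale`), germ of `u`: `g₁ y = g (p + y) - g p`.
  If `x ∉ K`: `h (σ p) = 0`, `trans_near` gives `T` with `Coord g₁ T`; `η y = (g₁ y, T y)` is biholomorphic, with inverse `η'`; the chart `σ₂ y = a • σ (p + η' y)` (`IsChart.comp`) satisfies `u (σ₂ y) - (u x + y.1) ∈ Λ` and `σ₂ y ∉ K ↔ T (η' y) = 0 ↔ y.2 = 0`.  If `x ∈ K`: `σ (p + y) ∈ K` for `y` near `0` (`OpenPart.rel`), `fderiv ℂ g p ≠ 0` (`H17N.crit_near`), choose a linear form as second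
  coordinate: `Coord g₁ T`, and the same chart.  Finally suppose `q (σ₂ (0, t)) = 0` for `t` near `0`: then `π t = p + η' (0, t)` is an analytic curve with `π 0 = p`, `g (π t) = g p` near `0`, `Q (π t) = 0` (`hom`), `deriv π 0 ≠ 0`: contradiction to `H17N.level_near` (for `p` near `0`).
* `exists_badV`: `B = {c | ¬ GoodC X K Λ u q c}`, invariant under `Λ`.  By `Pool.Agent.EG.separated` it suffices that for every `c` there is `ε > 0` such that all `c'` with `0 < ‖c' - c‖ < ε` are good.  Otherwise there are `c_n → c`, `c_n ≠ c`, `x_n ∈ X`, `‖x_n‖ = 1`, `u (x_n) - c_n ∈ Λ` which violate the condition in `GoodC` (the condition at `x` implies the condition at `a • x`, chart `a • σ`, so one may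
  normalise); a subsequence (or ultrafilter limit) converges to `x₀ ∈ X`, `‖x₀‖ = 1`; with a local lift `v` of `u` at `x₀`: `v (x_n) - c_n ∈ Λ` converges, so it is constant for large `n` and `u x₀ - c ∈ Λ`; `u (x_n) - u x₀ ∉ Λ` for large `n`, since otherwise `c_n - c ∈ Λ` tends to `0`.  `good_near` at `x₀`: contradiction (`u x - c' ∈ Λ` allows to replace `u x + y.1` by `c' + y.1`).
-/

set_option autoImplicit false

open Topology Filter

namespace Pool.Agent.H17V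

open Pool.Agent.H17BP (Surface IsChart IsForm NoZeros Pr HolP)
open Pool.Agent.H17N (TMap LU)
open Pool.Agent.H17BP (Bihol Coord coord_iff dx dy)
open Pool.Agent.H36.BPL (OpenPart PoleLE)
open Pool.Agent.H62.EF (Lat)

variable {V : Type} [NormedAddCommGroup V] [NormedSpace ℂ V] [FiniteDimensional ℂ V] {X K : Set V} {Λ : AddSubgroup ℂ} {u : V → ℂ} {m d : ℕ}
  {Ω : V → V → V → ℂ} {q : V → ℂ}

private theorem BadV_closed (hΛ : Lat Λ) : IsClosed (Λ : Set ℂ) := by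
  obtain ⟨δ, hδ, h⟩ := hΛ.discrete
  refine Metric.isClosed_of_pairwise_le_dist hδ ?_
  intro x hx y hy hxy
  by_contra hlt
  push Not at hlt
  rw [dist_eq_norm] at hlt
  exact hxy (sub_eq_zero.mp (h _ (Λ.sub_mem hx hy) hlt))

/-- the condition in `GoodC` at the point `x` -/
private def BadV_G (X K : Set V) (Λ : AddSubgroup ℂ) (u : V → ℂ) (q : V → ℂ) (c : ℂ) (x : V) : Prop :=
  ∃ σ τ, SC X K Λ u c σ τ ∧ σ 0 = x ∧ ¬ ∀ᶠ t in 𝓝 (0 : ℂ), q (σ (0, t)) = 0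

private theorem BadV_congr {c c' : ℂ} (hc : c - c' ∈ Λ) {x : V} (h : BadV_G X K Λ u q c x) : BadV_G X K Λ u q c' x := by
  obtain ⟨σ, τ, h1, h2, h3⟩ := h
  refine ⟨σ, τ, ⟨h1.chart, ?_, h1.bd⟩, h2, h3⟩
  filter_upwards [h1.lift] with p hp
  have h4 : u (σ p) - (c' + p.1) = (u (σ p) - (c + p.1)) + (c - c') := by ring
  rw [h4]
  exact Λ.add_mem hp hc

private theorem BadV_scale (h : VData X K Λ u m Ω q d) {c : ℂ} {x : V} (hx : BadV_G X K Λ u q c x) {a : ℂ} (ha : a ≠ 0) :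
    BadV_G X K Λ u q c (a • x) := by
  obtain ⟨σ, τ, h1, h2, h3⟩ := hx
  have hK : ∀ y : V, a • y ∈ K ↔ y ∈ K := by
    intro y
    refine ⟨fun hy => ?_, fun hy => h.opn.smul y hy a ha⟩
    have h4 := h.opn.smul _ hy a⁻¹ (inv_ne_zero ha)
    rwa [smul_smul, inv_mul_cancel₀ ha, one_smul] at h4
  refine ⟨_, _, ⟨h1.chart.scale h.surf.smul ha, ?_, ?_⟩, by simp only [h2], ?_⟩
  · filter_upwards [h1.lift, h1.chart.σ_mem] with p hp hp1
    have h4 : u (a • σ p) - (c + p.1) = (u (a • σ p) - u (σ p)) + (u (σ p) - (c + p.1)) := by ring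
    rw [h4]
    exact Λ.add_mem (h.tor.smul _ hp1 a ha) hp
  · rcases h1.bd with h4 | h4
    · left
      filter_upwards [h4] with p hp
      exact (hK _).2 hp
    · right
      filter_upwards [h4] with p hp
      rw [hK, hp]
  · intro h4
    apply h3
    filter_upwards [h4] with t ht
    rw [h.hom] at ht
    exact (mul_eq_zero.1 ht).resolve_left (pow_ne_zero d ha)

private theorem BadV_form {g : ℂ × ℂ → ℂ} (hg : AnalyticAt ℂ g 0) (h0 : g 0 = 0) (hd : fderiv ℂ g 0 ≠ 0) : ∃ T, Coord g T := by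
  have hF : AnalyticAt ℂ (fun x : ℂ × ℂ => x.1) 0 := analyticAt_fst
  have hS : AnalyticAt ℂ (fun x : ℂ × ℂ => x.2) 0 := analyticAt_snd
  have f1 : fderiv ℂ (fun x : ℂ × ℂ => x.1) 0 = ContinuousLinearMap.fst ℂ ℂ ℂ := (hasFDerivAt_fst).fderiv
  have f2 : fderiv ℂ (fun x : ℂ × ℂ => x.2) 0 = ContinuousLinearMap.snd ℂ ℂ ℂ := (hasFDerivAt_snd).fderiv
  by_cases h1 : dx g 0 = 0
  · have h2 : dy g 0 ≠ 0 := by
      intro h2
      apply hd
      ext
      · simpa [dx] using h1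
      · simpa [dy] using h2
    refine ⟨fun x => x.1, (coord_iff hg hF h0 rfl).2 ?_⟩
    have e1 : dy (fun x : ℂ × ℂ => x.1) 0 = 0 := by simp [dy, f1]
    have e2 : dx (fun x : ℂ × ℂ => x.1) 0 = 1 := by simp [dx, f1]
    rw [e1, e2, mul_zero, mul_one, zero_sub]
    exact neg_ne_zero.2 h2
  · refine ⟨fun x => x.2, (coord_iff hg hS h0 rfl).2 ?_⟩
    have e1 : dy (fun x : ℂ × ℂ => x.2) 0 = 1 := by simp [dy, f2]
    have e2 : dx (fun x : ℂ × ℂ => x.2) 0 = 0 := by simp [dx, f2]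
    rw [e1, e2, mul_zero, mul_one, sub_zero]
    exact h1

/-- the first coordinate can be straightened; the level curve is not in the zero set of `Q` -/
private theorem BadV_chart {σ : ℂ × ℂ → V} {τ : V → ℂ × ℂ} (hc : IsChart X σ τ) {g T : ℂ × ℂ → ℂ}
    (hg : LU Λ u σ g) (hT : Coord g T)
    (hbd : (∀ᶠ x in 𝓝 (0 : ℂ × ℂ), σ x ∈ K) ∨ ∀ᶠ x in 𝓝 (0 : ℂ × ℂ), σ x ∉ K ↔ T x = 0)
    (hQ : ∀ π : ℂ → ℂ × ℂ, AnalyticAt ℂ π 0 → π 0 = 0 → (∀ᶠ z in 𝓝 (0 : ℂ), g (π z) = 0) → (∀ᶠ z in 𝓝 (0 : ℂ), q (σ (π z)) = 0) → deriv π 0 = 0) :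
    BadV_G X K Λ u q (u (σ 0)) (σ 0) := by
  have hθ : Bihol fun x => (g x, T x) := hT
  obtain ⟨θ', hθ', h1, h2⟩ := hθ.exists_inv
  refine ⟨_, _, ⟨hc.comp hθ' hθ h2 h1, ?_, ?_⟩, ?_, ?_⟩
  · filter_upwards [hθ'.tendsto.eventually hg.2.2, h2] with p hp1 hp2
    have e1 : g (θ' p) = p.1 := congrArg Prod.fst hp2
    rw [e1] at hp1
    have e2 : u (σ (θ' p)) - (u (σ 0) + p.1) = u (σ (θ' p)) - u (σ 0) - p.1 := by ring
    rw [e2]
    exact hp1
  · rcases hbd with h3 | h3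
    · left
      exact hθ'.tendsto.eventually h3
    · right
      filter_upwards [hθ'.tendsto.eventually h3, h2] with p hp1 hp2
      have e1 : T (θ' p) = p.2 := congrArg Prod.snd hp2
      rw [hp1, e1]
  · show σ (θ' 0) = σ 0
    rw [hθ'.zero]
  · intro h3
    have hi : Continuous fun t : ℂ => ((0, t) : ℂ × ℂ) := by fun_prop
    have hi0 : Tendsto (fun t : ℂ => ((0, t) : ℂ × ℂ)) (𝓝 0) (𝓝 0) := hi.tendsto 0
    have hia : AnalyticAt ℂ (fun t : ℂ => ((0, t) : ℂ × ℂ)) 0 := analyticAt_const.prod analyticAt_id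
    have hπ : AnalyticAt ℂ (fun t : ℂ => θ' (0, t)) 0 := by
      refine AnalyticAt.fun_comp (g := θ') ?_ hia
      exact hθ'.an
    have hπ0 : θ' ((0 : ℂ), (0 : ℂ)) = 0 := hθ'.zero
    have h4 : ∀ᶠ t in 𝓝 (0 : ℂ), g (θ' (0, t)) = 0 := by
      filter_upwards [hi0.eventually h2] with t ht
      exact congrArg Prod.fst ht
    have h5 : ∀ᶠ t in 𝓝 (0 : ℂ), T (θ' (0, t)) = t := by
      filter_upwards [hi0.eventually h2] with t ht
      exact congrArg Prod.snd ht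
    have h6 := hQ (fun t => θ' (0, t)) hπ hπ0 h4 h3
    have hTan : AnalyticAt ℂ T 0 := hT.parts.2.1
    have h7 : HasDerivAt (fun t : ℂ => T (θ' (0, t))) (fderiv ℂ T 0 (deriv (fun t : ℂ => θ' (0, t)) 0)) 0 := by
      have h8 : HasFDerivAt T (fderiv ℂ T 0) (θ' (0, 0)) := by
        rw [hπ0]
        exact hTan.differentiableAt.hasFDerivAt
      exact h8.comp_hasDerivAt (0 : ℂ) hπ.differentiableAt.hasDerivAt
    rw [h6, map_zero] at h7
    have h9 : HasDerivAt (fun t : ℂ => t) (0 : ℂ) 0 := h7.congr_of_eventuallyEq (h5.mono fun t ht => ht.symm)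
    exact one_ne_zero ((hasDerivAt_id (0 : ℂ)).unique h9)

private theorem BadV_loc (h : VData X K Λ u m Ω q d) {σ : ℂ × ℂ → V} {τ : V → ℂ × ℂ} (hc : IsChart X σ τ) {g : ℂ × ℂ → ℂ} (hg : LU Λ u σ g) :
    ∀ᶠ p in 𝓝 (0 : ℂ × ℂ), g p ≠ 0 → BadV_G X K Λ u q (u (σ p)) (σ p) := by
  have hx₀ : σ 0 ∈ X := hc.σ_mem.self_of_nhds
  obtain ⟨hh, hhan, hhe⟩ := h.opn.eqn _ hx₀
  have hadd : ∀ p : ℂ × ℂ, Tendsto (fun x : ℂ × ℂ => p + x) (𝓝 0) (𝓝 p) := fun p => by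
    have h1 : Continuous fun x : ℂ × ℂ => p + x := by fun_prop
    have h2 := h1.tendsto 0
    simpa using h2
  have hHan : AnalyticAt ℂ (fun p => hh (σ p)) 0 := hhan.comp hc.σ_an
  have hHK : ∀ᶠ p in 𝓝 (0 : ℂ × ℂ), σ p ∉ K ↔ hh (σ p) = 0 := by
    filter_upwards [hc.σ_an.continuousAt.tendsto.eventually hhe, hc.σ_mem] with p hp1 hp2
    exact hp1 hp2
  have hHne : ¬ ∀ᶠ p in 𝓝 (0 : ℂ × ℂ), hh (σ p) = 0 := by
    intro h1
    apply h.thin σ τ hc
    filter_upwards [h1, hHK, hc.σ_mem] with p hp1 hp2 hp3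
    exact h.sub _ hp3 (hp2.2 hp1)
  have hQan : AnalyticAt ℂ (fun p => q (σ p)) 0 := (h.an _).comp hc.σ_an
  obtain ⟨δ, hδ, hlev⟩ := Pool.Agent.H17N.level_near hg.1 hg.2.1 hQan (h.thin σ τ hc)
  have e1 : ∀ᶠ p in 𝓝 (0 : ℂ × ℂ), LU Λ u (fun x => σ (p + x)) (fun x => g (p + x) - g p) := by
    filter_upwards [hg.1.eventually_analyticAt, eventually_eventually_nhds.2 hg.2.2] with p hp1 hp2
    refine ⟨?_, by simp, ?_⟩
    · have h1 : AnalyticAt ℂ (fun x : ℂ × ℂ => p + x) 0 := analyticAt_const.add analyticAt_id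
      have h2 : AnalyticAt ℂ g ((fun x : ℂ × ℂ => p + x) 0) := by
        simp only [add_zero]
        exact hp1
      exact (h2.comp h1).sub analyticAt_const
    · have h0 := hp2.self_of_nhds
      filter_upwards [(hadd p).eventually hp2] with x hx2
      have h2 : u (σ (p + x)) - u (σ (p + 0)) - (g (p + x) - g p) = (u (σ (p + x)) - u (σ 0) - g (p + x)) - (u (σ p) - u (σ 0) - g p) := by
        rw [add_zero]
        ring
      rw [h2]
      exact Λ.sub_mem hx2 h0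
  filter_upwards [hc.near, e1, trans_near hg.1 hg.2.1 hHan hHne, Pool.Agent.H17N.crit_near hg.1 hg.2.1, hHK.eventually_nhds,
    hHan.eventually_analyticAt, Metric.ball_mem_nhds (0 : ℂ × ℂ) hδ] with p hp1 hp2 hp3 hp4 hp5 hp6 hp7 hgp
  have hT : ∃ T, Coord (fun x => g (p + x) - g p) T ∧
      ((∀ᶠ x in 𝓝 (0 : ℂ × ℂ), σ (p + x) ∈ K) ∨ ∀ᶠ x in 𝓝 (0 : ℂ × ℂ), σ (p + x) ∉ K ↔ T x = 0) := by
    by_cases hHp : hh (σ p) = 0
    · obtain ⟨T, hT1, hT2⟩ := hp3 hgp hHp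
      refine ⟨T, hT1, Or.inr ?_⟩
      filter_upwards [hT2, (hadd p).eventually hp5] with x hx1 hx2
      rw [hx2, hx1]
    · have hd : fderiv ℂ (fun x => g (p + x) - g p) 0 ≠ 0 := by
        have h1 : fderiv ℂ (fun x => g (p + x) - g p) 0 = fderiv ℂ g p := by
          rw [fderiv_sub_const, fderiv_comp_add_left, add_zero]
        rw [h1]
        exact hp4 hgp
      obtain ⟨T, hT⟩ := BadV_form hp2.1 hp2.2.1 hd
      refine ⟨T, hT, Or.inl ?_⟩
      have h1 : ∀ᶠ y in 𝓝 p, hh (σ y) ≠ 0 := hp6.continuousAt.eventually_ne hHp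
      filter_upwards [(hadd p).eventually hp5, (hadd p).eventually h1] with x hx1 hx2
      by_contra hx3
      exact hx2 (hx1.1 hx3)
  obtain ⟨T, hT1, hT2⟩ := hT
  have hfin := BadV_chart (K := K) (q := q) hp1 hp2 hT1 hT2 ?_
  · simpa using hfin
  · intro π hπ hπ0 h1 h2
    have h3 : AnalyticAt ℂ (fun z => p + π z) 0 := analyticAt_const.add hπ
    have h4 : p + π 0 = p := by rw [hπ0, add_zero]
    have h5 := hlev (fun z => p + π z) h3 (by rw [h4]; exact hp7) (by rw [h4]; exact hgp) (by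
      rw [h4]
      filter_upwards [h1] with z hz
      exact sub_eq_zero.1 hz) h2
    rwa [deriv_const_add] at h5

theorem good_near (hΛ : Lat Λ) (h : VData X K Λ u m Ω q d) {x₀ : V} (hx₀ : x₀ ∈ X) :
    ∀ᶠ x in 𝓝 x₀, x ∈ X → u x - u x₀ ∉ Λ → ∃ σ τ, SC X K Λ u (u x) σ τ ∧ σ 0 = x ∧ ¬ ∀ᶠ t in 𝓝 (0 : ℂ), q (σ (0, t)) = 0 := by
  obtain ⟨σ, τ, hc, h0⟩ := h.surf.chart x₀ hx₀
  obtain ⟨g, hg⟩ := Pool.Agent.H17N.exists_lu h.tor hc
  have hτ0 : τ (σ 0) = 0 := hc.left.self_of_nhds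
  have hτ : Tendsto τ (𝓝 (σ 0)) (𝓝 0) := by
    have h1 := hc.τ_an.continuousAt.tendsto
    rwa [hτ0] at h1
  rw [← h0]
  filter_upwards [hc.right, hτ.eventually (BadV_loc h hc hg), hτ.eventually hg.2.2, hτ.eventually hc.σ_mem] with x hx1 hx2 hx3 hx4 hxX hxn
  obtain ⟨a, ha, hxa⟩ := hx1 hxX
  have h1 : u x - u (σ (τ x)) ∈ Λ := by
    have h2 := h.tor.smul _ hx4 a ha
    rwa [← hxa] at h2
  have hgp : g (τ x) ≠ 0 := by
    intro h2
    apply hxn
    rw [h2, sub_zero] at hx3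
    have h3 : u x - u (σ 0) = (u x - u (σ (τ x))) + (u (σ (τ x)) - u (σ 0)) := by ring
    rw [h3]
    exact Λ.add_mem h1 hx3
  have h2 := BadV_scale h (hx2 hgp) ha
  rw [← hxa] at h2
  refine BadV_congr ?_ h2
  have h3 : u (σ (τ x)) - u x = -(u x - u (σ (τ x))) := by ring
  rw [h3]
  exact Λ.neg_mem h1

/-- the values near `c`, the points near `x₀` -/
private theorem BadV_pt (hΛ : Lat Λ) (h : VData X K Λ u m Ω q d) (c : ℂ) {x₀ : V} (hx₀ : x₀ ∈ X) :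
    ∀ᶠ z : ℂ × V in 𝓝 (c, x₀), z.1 ≠ c → z.2 ∈ X → u z.2 - z.1 ∈ Λ → BadV_G X K Λ u q z.1 z.2 := by
  have h1 : Tendsto (fun z : ℂ × V => z.1) (𝓝 (c, x₀)) (𝓝 c) := continuous_fst.tendsto _
  have h2 : Tendsto (fun z : ℂ × V => z.2) (𝓝 (c, x₀)) (𝓝 x₀) := continuous_snd.tendsto _
  obtain ⟨δ, hδ, hdis⟩ := hΛ.discrete
  by_cases hc : u x₀ - c ∈ Λ
  · filter_upwards [h2.eventually (good_near hΛ h hx₀), h1.eventually (Metric.ball_mem_nhds c hδ)] with z hz1 hz2 hne hzX hzu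
    refine BadV_congr hzu (hz1 hzX ?_)
    intro h3
    have h4 : z.1 - c ∈ Λ := by
      have h5 : z.1 - c = -(u z.2 - z.1) + (u z.2 - u x₀) + (u x₀ - c) := by ring
      rw [h5]
      exact Λ.add_mem (Λ.add_mem (Λ.neg_mem hzu) h3) hc
    have h5 := hdis _ h4 (by rw [← dist_eq_norm]; exact hz2)
    exact hne (sub_eq_zero.1 h5)
  · obtain ⟨v, hv, hev⟩ := h.tor.loc _ hx₀
    have h0 : u x₀ - v x₀ ∈ Λ := hev.self_of_nhds hx₀
    have hcl : IsClosed (Λ : Set ℂ) := BadV_closed hΛ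
    have hvc : v x₀ - c ∉ (Λ : Set ℂ) := by
      intro h3
      apply hc
      have h5 : u x₀ - c = (u x₀ - v x₀) + (v x₀ - c) := by ring
      rw [h5]
      exact Λ.add_mem h0 h3
    have h3 : Tendsto (fun z : ℂ × V => v z.2 - z.1) (𝓝 (c, x₀)) (𝓝 (v x₀ - c)) :=
      (hv.continuousAt.tendsto.comp h2).sub h1
    filter_upwards [h3.eventually (hcl.isOpen_compl.mem_nhds hvc), h2.eventually hev] with z hz1 hz2 hne hzX hzu
    exfalso
    apply hz1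
    have h5 : v z.2 - z.1 = (u z.2 - z.1) - (u z.2 - v z.2) := by ring
    show v z.2 - z.1 ∈ Λ
    rw [h5]
    exact Λ.sub_mem hzu (hz2 hzX)

theorem exists_badV (hΛ : Lat Λ) (h : VData X K Λ u m Ω q d) :
    ∃ B : Set ℂ, (∀ b ∈ B, ∀ l ∈ Λ, b + l ∈ B) ∧ (∃ δ : ℝ, 0 < δ ∧ ∀ b ∈ B, ∀ b' ∈ B, b ≠ b' → δ ≤ ‖b - b'‖) ∧
      ∀ c, c ∉ B → GoodC X K Λ u q c := by
  have hinv : ∀ c ∈ {c | ¬ GoodC X K Λ u q c}, ∀ l ∈ Λ, c + l ∈ {c | ¬ GoodC X K Λ u q c} := by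
    intro c hc l hl hg
    apply hc
    intro x hx hxc
    have h1 : u x - (c + l) ∈ Λ := by
      have h2 : u x - (c + l) = (u x - c) - l := by ring
      rw [h2]
      exact Λ.sub_mem hxc hl
    exact BadV_congr (by rwa [add_sub_cancel_left]) (hg x hx h1)
  refine ⟨{c | ¬ GoodC X K Λ u q c}, hinv, Pool.Agent.EG.separated hΛ hinv ?_, fun c hc => not_not.1 hc⟩
  intro c
  have : ProperSpace V := FiniteDimensional.proper ℂ V
  have hS : IsCompact (closure X ∩ Metric.sphere (0 : V) 1) := (isCompact_sphere (0 : V) 1).inter_left isClosed_closure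
  have hSX : ∀ x ∈ closure X ∩ Metric.sphere (0 : V) 1, x ∈ X := by
    rintro x ⟨hx1, hx2⟩
    refine h.surf.closed x hx1 ?_
    rintro rfl
    simp at hx2
  have h1 := hS.eventually_forall_of_forall_eventually (x₀ := c)
    (P := fun c' x => c' ≠ c → x ∈ X → u x - c' ∈ Λ → BadV_G X K Λ u q c' x) (fun x hx => BadV_pt hΛ h c (hSX x hx))
  obtain ⟨ε, hε, h2⟩ := Metric.eventually_nhds_iff.1 h1
  refine ⟨ε, hε, fun c' hc' hlt => ?_⟩
  by_contra hne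
  apply hc'
  intro x hx hxc
  have hx0 : x ≠ 0 := by
    rintro rfl
    exact h.surf.zero hx
  have hn : ‖x‖ ≠ 0 := norm_ne_zero_iff.2 hx0
  have hnC : ((‖x‖ : ℝ) : ℂ) ≠ 0 := by exact_mod_cast hn
  have hy : ((‖x‖ : ℝ) : ℂ)⁻¹ • x ∈ X := h.surf.smul x hx _ (inv_ne_zero hnC)
  have hyS : ((‖x‖ : ℝ) : ℂ)⁻¹ • x ∈ closure X ∩ Metric.sphere (0 : V) 1 := by
    refine ⟨subset_closure hy, ?_⟩
    rw [mem_sphere_zero_iff_norm, norm_smul, norm_inv, Complex.norm_real, norm_norm, inv_mul_cancel₀ hn]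
  have hyu : u (((‖x‖ : ℝ) : ℂ)⁻¹ • x) - c' ∈ Λ := by
    have h3 : u (((‖x‖ : ℝ) : ℂ)⁻¹ • x) - c' = (u (((‖x‖ : ℝ) : ℂ)⁻¹ • x) - u x) + (u x - c') := by ring
    rw [h3]
    exact Λ.add_mem (h.tor.smul x hx _ (inv_ne_zero hnC)) hxc
  have h3 := BadV_scale h (h2 (by rwa [dist_eq_norm]) _ hyS hne hy hyu) hnC
  rwa [smul_smul, mul_inv_cancel₀ hnC, one_smul] at h3

end Pool.Agent.H17V
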