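import Pool.Agent.H17N.Defs
import Pool.Agent.H36.BPL.Defs
import Pool.Agent.H62.EF.LimL

/-!
# H17V Defs: entire curves in the fibres of an open surface of log general type over an elliptic curve

`X` is the cone (without `0`) over a smooth projective surface, `K ⊆ X` the cone over the complement of a curve, `u` a holomorphic map to `ℂ / Λ` (H17N Defs), `Ω` a section of `m (K_X + D) - H` over `K`
with poles of order at most `m - 1` along `X ∖ K` and without zeros outside `{q = 0}`.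
-/

set_option autoImplicit false

open Topology Filter

namespace Pool.Agent.H17V

open Pool.Agent.H17BP (Surface IsChart IsForm NoZeros Pr HolP)
open Pool.Agent.H17N (TMap)
open Pool.Agent.H36.BPL (OpenPart PoleLE)

variable {V : Type} [NormedAddCommGroup V] [NormedSpace ℂ V]

/-- the data -/
structure VData (X K : Set V) (Λ : AddSubgroup ℂ) (u : V → ℂ) (m : ℕ) (Ω : V → V → V → ℂ) (q : V → ℂ) (d : ℕ) : Prop where
  surf : Surface X
  opn : OpenPart X K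
  tor : TMap X Λ u
  one : 1 ≤ m
  form : IsForm K m 1 Ω
  pole : PoleLE X K (m - 1) Ω
  noZeros : NoZeros K {x | x ∈ X ∧ q x = 0} Ω
  an : ∀ x, AnalyticAt ℂ q x
  hom : ∀ (c : ℂ) (x : V), q (c • x) = c ^ d * q x
  thin : ∀ σ τ, IsChart X σ τ → ¬ ∀ᶠ p in 𝓝 (0 : ℂ × ℂ), q (σ p) = 0
  sub : ∀ x ∈ X, x ∉ K → q x = 0

/-- a chart `σ (s, t)` with `u = c + s`; the boundary `X ∖ K` is `{t = 0}` if it meets the chart -/
structure SC (X K : Set V) (Λ : AddSubgroup ℂ) (u : V → ℂ) (c : ℂ) (σ : ℂ × ℂ → V) (τ : V → ℂ × ℂ) : Prop where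
  chart : IsChart X σ τ
  lift : ∀ᶠ p in 𝓝 (0 : ℂ × ℂ), u (σ p) - (c + p.1) ∈ Λ
  bd : (∀ᶠ p in 𝓝 (0 : ℂ × ℂ), σ p ∈ K) ∨ ∀ᶠ p in 𝓝 (0 : ℂ × ℂ), σ p ∉ K ↔ p.2 = 0

/-- `c` is a good value: the fibre is smooth, transversal to the boundary, and not contained in `{q = 0}` near any of its points -/
def GoodC (X K : Set V) (Λ : AddSubgroup ℂ) (u : V → ℂ) (q : V → ℂ) (c : ℂ) : Prop :=
  ∀ x ∈ X, u x - c ∈ Λ → ∃ σ τ, SC X K Λ u c σ τ ∧ σ 0 = x ∧ ¬ ∀ᶠ t in 𝓝 (0 : ℂ), q (σ (0, t)) = 0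

/-- the second coordinate of the curve `H` -/
noncomputable def tco (τ : V → ℂ × ℂ) (H : ℂ → V) (z : ℂ) : ℂ := (τ (H z)).2

/-- the form on the derivative of a curve `H` in a fibre, multiplied by `H`, in a chart -/
noncomputable def loc (m : ℕ) (Ω : V → V → V → ℂ) (σ : ℂ × ℂ → V) (τ : V → ℂ × ℂ) (H : ℂ → V) (z : ℂ) : V :=
  ((deriv (tco τ H) z) ^ m * Ω (σ (0, tco τ H z)) (fderiv ℂ σ (0, tco τ H z) (1, 0)) (fderiv ℂ σ (0, tco τ H z) (0, 1))) • σ (0, tco τ H z)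

/-- `Φ` is the form on the derivative of the curve `H`, multiplied by `H` -/
def IsV (X K : Set V) (Λ : AddSubgroup ℂ) (u : V → ℂ) (m : ℕ) (Ω : V → V → V → ℂ) (c : ℂ) (H Φ : ℂ → V) : Prop :=
  ∀ σ τ, SC X K Λ u c σ τ → ∃ O ∈ 𝓝 (σ 0), ∀ z a : ℂ, a ≠ 0 → a • H z ∈ O → Φ z = loc m Ω σ τ (fun ζ => a • H ζ) z

end Pool.Agent.H17V
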