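import Mathlib

/-!
# H17V LogD: the derivative of a function without zeros

* `log_deriv_bd`: `t` holomorphic on the disc of radius `r` around `0`, `0 < ‖t ζ‖ < 1`.  There is a holomorphic logarithm `l` of `t` on the disc (simply connected; e.g. primitive of `t' / t`), `Re l < 0`.  For a holomorphic map `l` of the disc to the left half plane `‖l' (0)‖ ≤ 2 |Re l (0)| / r` (Borel–Caratheodory, or Schwarz's lemma for `(l - l 0) / (l + conj (l 0))`).  So `‖t' (0)‖ ≤ (2 / r) ‖t 0‖ log (1 / ‖t 0‖)`.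
-/

set_option autoImplicit false

open Topology Filter

namespace Pool.Agent.H17V

theorem log_deriv_bd {r : ℝ} (hr : 0 < r) {t : ℂ → ℂ} (ht : DifferentiableOn ℂ t (Metric.ball 0 r)) (h0 : ∀ ζ ∈ Metric.ball (0 : ℂ) r, t ζ ≠ 0)
    (h1 : ∀ ζ ∈ Metric.ball (0 : ℂ) r, ‖t ζ‖ < 1) : ‖deriv t 0‖ ≤ 2 / r * (‖t 0‖ * Real.log (1 / ‖t 0‖)) := by
  have hb0 : (0 : ℂ) ∈ Metric.ball (0 : ℂ) r := Metric.mem_ball_self hr
  have ho : IsOpen (Metric.ball (0 : ℂ) r) := Metric.isOpen_ball
  have hta : ∀ z ∈ Metric.ball (0 : ℂ) r, DifferentiableAt ℂ t z := fun z hz =>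
    ht.differentiableAt (ho.mem_nhds hz)
  have hdt : DifferentiableOn ℂ (deriv t) (Metric.ball 0 r) := ht.deriv ho
  have hq : DifferentiableOn ℂ (fun z => deriv t z / t z) (Metric.ball 0 r) := hdt.div ht h0
  obtain ⟨l, hl0, hl⟩ := hq.isExactOn_ball.with_val_at 0 (Complex.log (t 0))
  -- `exp l = t`
  have hexp : ∀ z ∈ Metric.ball (0 : ℂ) r, Complex.exp (l z) = t z := by
    intro z hz
    have hd : ∀ y ∈ Metric.ball (0 : ℂ) r, HasDerivAt (fun y => Complex.exp (-l y) * t y) 0 y := by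
      intro y hy
      have e1 : HasDerivAt (fun y => Complex.exp (-l y) * t y)
          (Complex.exp (-l y) * -(deriv t y / t y) * t y + Complex.exp (-l y) * deriv t y) y :=
        ((hl y hy).neg.cexp).mul (hta y hy).hasDerivAt
      have e2 : Complex.exp (-l y) * -(deriv t y / t y) * t y + Complex.exp (-l y) * deriv t y = 0 := by
        have := h0 y hy
        field_simp
        ring
      rw [e2] at e1
      exact e1
    have hc : Complex.exp (-l z) * t z = Complex.exp (-l 0) * t 0 := ho.is_const_of_deriv_eq_zero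
      (f := fun y => Complex.exp (-l y) * t y) (convex_ball _ _).isPreconnected
      (fun y hy => (hd y hy).differentiableAt.differentiableWithinAt)
      (fun y hy => (hd y hy).deriv) hz hb0
    rw [hl0, Complex.exp_neg, Complex.exp_neg, Complex.exp_log (h0 0 hb0), inv_mul_cancel₀ (h0 0 hb0)] at hc
    have := Complex.exp_ne_zero (l z)
    field_simp at hc
    exact hc.symm
  have hn : ∀ z ∈ Metric.ball (0 : ℂ) r, Real.exp (l z).re = ‖t z‖ := by
    intro z hz
    rw [← hexp z hz, Complex.norm_exp]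
  have hre : ∀ z ∈ Metric.ball (0 : ℂ) r, (l z).re < 0 := by
    intro z hz
    have := h1 z hz
    rw [← hn z hz, Real.exp_lt_one_iff] at this
    exact this
  have hre0 : (l 0).re = Real.log ‖t 0‖ := by
    rw [← hn 0 hb0, Real.log_exp]
  -- Schwarz
  have hden : ∀ z ∈ Metric.ball (0 : ℂ) r, l z + (starRingEnd ℂ) (l 0) ≠ 0 := by
    intro z hz h
    have e1 := congrArg Complex.re h
    rw [Complex.add_re, Complex.conj_re, Complex.zero_re] at e1
    have := hre z hz
    have := hre 0 hb0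
    linarith
  obtain ⟨h, hh⟩ : ∃ h : ℂ → ℂ, h = fun z => (l z - l 0) / (l z + (starRingEnd ℂ) (l 0)) := ⟨_, rfl⟩
  have hh0 : h 0 = 0 := by rw [hh]; simp
  have hder : ∀ z ∈ Metric.ball (0 : ℂ) r, HasDerivAt h ((deriv t z / t z * (l z + (starRingEnd ℂ) (l 0)) -
      (l z - l 0) * (deriv t z / t z)) / (l z + (starRingEnd ℂ) (l 0)) ^ 2) z := by
    intro z hz
    rw [hh]
    exact ((hl z hz).sub_const _).div ((hl z hz).add_const _) (hden z hz)
  have hmaps : Set.MapsTo h (Metric.ball 0 r) (Metric.closedBall (h 0) 1) := by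
    intro z hz
    rw [hh0, mem_closedBall_zero_iff, hh]
    simp only
    rw [norm_div]
    refine div_le_one_of_le₀ ?_ (norm_nonneg _)
    refine le_of_sq_le_sq ?_ (norm_nonneg _)
    rw [← Complex.normSq_eq_norm_sq, ← Complex.normSq_eq_norm_sq, Complex.normSq_apply, Complex.normSq_apply]
    simp only [Complex.sub_re, Complex.sub_im, Complex.add_re, Complex.add_im, Complex.conj_re, Complex.conj_im]
    have e1 := hre z hz
    have e2 := hre 0 hb0
    nlinarith [mul_pos_of_neg_of_neg e1 e2]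
  have hS := Complex.norm_deriv_le_div_of_mapsTo_ball
    (fun z hz => (hder z hz).differentiableAt.differentiableWithinAt) hmaps hr
  rw [(hder 0 hb0).deriv, sub_self, zero_mul, sub_zero, sq, mul_div_mul_right _ _ (hden 0 hb0),
    Complex.add_conj, norm_div, norm_div] at hS
  have e3 : ‖((2 * (l 0).re : ℝ) : ℂ)‖ = 2 * Real.log (1 / ‖t 0‖) := by
    rw [Complex.norm_real, Real.norm_eq_abs, abs_of_nonpos (by have := hre 0 hb0; linarith), hre0,
      one_div, Real.log_inv]
    ring
  have ht0 : 0 < ‖t 0‖ := norm_pos_iff.2 (h0 0 hb0)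
  have hlog : 0 < Real.log (1 / ‖t 0‖) := by
    rw [one_div, Real.log_inv, ← hre0]
    have := hre 0 hb0
    linarith
  rw [e3, div_div, div_le_div_iff₀ (by positivity) hr] at hS
  have e4 : 2 / r * (‖t 0‖ * Real.log (1 / ‖t 0‖)) = (1 * (‖t 0‖ * (2 * Real.log (1 / ‖t 0‖)))) / r := by ring
  rw [e4, le_div_iff₀ hr]
  exact hS

end Pool.Agent.H17V
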