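import Pool.Agent.H17V.VEnd
import Pool.Agent.H36.LB.Final
import Pool.Agent.H17L.StartLA
import Pool.Agent.H17G.MainG

/-!
# H17V MainV: the entire curves in the fibres of a surface of log general type over an elliptic curve

`U = locVar P G` is an open part of log general type of a smooth projective surface `X`, the complement of a curve, `u : X → ℂ / Λ` holomorphic: for all but finitely many `c` the entire curves in `U` in the fibre over `c` are constant.
-/

set_option autoImplicit false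

open Topology Filter MvPolynomial

namespace Pool.Agent.H17V

open Pool.Agent.H17 (PN VanishesAt HolomorphicInto ZariskiClosedIn)
open Pool.Agent.H62.FC (Homog)
open Pool.Agent.H62.SA (locVar OnBd locCone exists_formF_of_smooth locCone_smul rep_mem_locCone mk_mem_locVar)
open Pool.Agent.H17BP (Surface IsChart IsForm NoZeros Pr HolP eval_smul_form)
open Pool.Agent.H17LG.Variety (FunField IsLogGeneralType)
open Pool.Agent.H13.SM (conTan cone)
open Pool.Agent.H17N (TMap)
open Pool.Agent.H36.BPL (OpenPart PoleLE analyticAt_form isForm_pow_mul)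
open Pool.Agent.H36.LB (IsCurveComplement openPart_of_curveComplement)
open Pool.Agent.H62.EF (Lat)
open Pool.Agent.H17EF (projVar IsHolomorphicMap coneE uE LE uE_eq sub_mem_iff)

variable {N s : ℕ} {P : Ideal (MvPolynomial (Fin (N + 1)) ℂ)} [P.IsPrime] {z : Fin 2 → FunField P} {G : Fin s → MvPolynomial (Fin (N + 1)) ℂ}
  {e : Fin s → ℕ} {Λ : AddSubgroup ℂ} {u : PN N → ℂ ⧸ Λ}

theorem exists_vdata (hP : Homog P) (hz : IsTranscendenceBasis ℂ z)
    (hsm : ∀ y : Fin (N + 1) → ℂ, y ≠ 0 → (∀ Q ∈ P, eval y Q = 0) → Module.finrank ℂ (conTan P y) ≤ 3)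
    (hG : ∀ m, (G m).IsHomogeneous (e m)) (hC : IsCurveComplement P G) (hne : ∃ m, G m ∉ P)
    (hgt : IsLogGeneralType (K := FunField P) (k := 2) (OnBd P G)) (hu : IsHolomorphicMap (projVar P) Λ u) :
    ∃ (m d : ℕ) (Ω : (Fin (N + 1) → ℂ) → (Fin (N + 1) → ℂ) → (Fin (N + 1) → ℂ) → ℂ) (q : (Fin (N + 1) → ℂ) → ℂ),
      VData (cone P) (locCone P G) Λ (fun x => uE Λ u (LE N x)) m Ω q d := by
  have hPp : P.IsPrime := inferInstance
  obtain ⟨m₀, hm₀⟩ := hne
  have hX : Surface (cone P) := Pool.Agent.H13.SM.surface_cone hP hz fun y hy => hsm y hy.1 hy.2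
  have hthin : ∀ σ τ, IsChart (cone P) σ τ → ∀ (d : ℕ) (Q : MvPolynomial (Fin (N + 1)) ℂ), Q.IsHomogeneous d →
      Q ∉ P → ∃ᶠ p in 𝓝 (0 : ℂ × ℂ), eval (σ p) Q ≠ 0 := fun σ τ h d Q hQ hQP =>
    Pool.Agent.H13.SM.frequently_ne_zero hP hz (fun y hy => hsm y hy.1 hy.2) h hQ hQP
  obtain ⟨k, Ω, D₀, Q₀, hk, hQ₀, hQ₀P, hΩ, hnz, hpole⟩ := exists_formF_of_smooth P hP hz hG hsm hgt
  set d := e m₀ with hd
  have hH₀ : (G m₀).IsHomogeneous d := hG m₀
  set Q : MvPolynomial (Fin (N + 1)) ℂ := G m₀ * Q₀ with hQdef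
  have hQhom : Q.IsHomogeneous (d + D₀) := hH₀.mul hQ₀
  have hQP : Q ∉ P := by
    intro h
    rcases hPp.mem_or_mem h with h | h
    · exact hm₀ h
    · exact hQ₀P h
  have hout : ∀ x ∈ cone P, x ∉ locCone P G → eval x (G m₀) = 0 := by
    intro x hx hxK
    by_contra h1
    exact hxK ⟨hx, m₀, h1⟩
  have hform := isForm_pow_mul (k := d + 1) (d := d) (by omega) hΩ (H := fun x => eval x (G m₀)) (analyticAt_form _)
    (fun c x => eval_smul_form hH₀ c x) (locCone_smul hP hG)
  have h1 : 1 * (d + 1) - d = 1 := by omega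
  rw [h1] at hform
  refine ⟨k * (d + 1), d + D₀, fun x v w => eval x (G m₀) * Ω x v w ^ (d + 1), fun x => eval x Q, ?_⟩
  exact
    { surf := hX
      opn := openPart_of_curveComplement hP hG hC
      tor := Pool.Agent.H17L.tmap_start hP hu
      one := Nat.mul_pos hk (Nat.succ_pos _)
      form := hform
      pole := PoleLE.pow_mul hk (Nat.succ_pos d) hpole (H := fun x => eval x (G m₀)) (analyticAt_form _) hout
      noZeros := by
        intro x hx hxT v hv w hw hi
        have h2 : eval x (G m₀) ≠ 0 := by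
          intro h0
          refine hxT ⟨hx.1, ?_⟩
          show eval x Q = 0
          rw [hQdef, map_mul, h0, zero_mul]
        refine mul_ne_zero h2 (pow_ne_zero _ (hnz x hx (fun h => hxT ⟨hx.1, ?_⟩) v hv w hw hi))
        show eval x Q = 0
        rw [hQdef, map_mul, h.2, mul_zero]
      an := fun x => analyticAt_form Q x
      hom := fun c x => eval_smul_form hQhom c x
      thin := fun σ τ h h' => ((hthin σ τ h _ Q hQhom hQP).and_eventually h').exists.elim fun p hp => hp.1 hp.2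
      sub := by
        intro x hx hxK
        show eval x Q = 0
        rw [hQdef, map_mul, hout x hx hxK, zero_mul] }

/-- **Vertical entire curves.** -/
theorem fib_of_logGT (hP : Homog P) (hz : IsTranscendenceBasis ℂ z)
    (hsm : ∀ y : Fin (N + 1) → ℂ, y ≠ 0 → (∀ Q ∈ P, eval y Q = 0) → Module.finrank ℂ (conTan P y) ≤ 3)
    (hG : ∀ m, (G m).IsHomogeneous (e m)) (hC : IsCurveComplement P G)
    (hgt : IsLogGeneralType (K := FunField P) (k := 2) (OnBd P G)) (hΛ : Lat Λ) (hu : IsHolomorphicMap (projVar P) Λ u) :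
    ∃ B₀ : Set (ℂ ⧸ Λ), B₀.Finite ∧ ∀ f : ℂ → PN N, HolomorphicInto f Set.univ → (∀ z, f z ∈ locVar P G) → (∀ z w, u (f z) = u (f w)) →
      u (f 0) ∉ B₀ → ∀ z w, f z = f w := by
  by_cases hne : ∃ m, G m ∉ P
  swap
  · refine ⟨∅, Set.finite_empty, fun f _ hf => ?_⟩
    exfalso
    obtain ⟨⟨m, hm⟩, hmem⟩ : (∃ m, ¬ VanishesAt (G m) (f 0)) ∧ f 0 ∈ projVar P := ⟨(hf 0).2, (hf 0).1⟩
    push Not at hne
    exact hm (hmem (G m) (hne m) _ (hG m))
  obtain ⟨m, d, Ω, q, hv⟩ := exists_vdata hP hz hsm hG hC hne hgt hu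
  obtain ⟨B, hinv, ⟨δ, hδ, hsep⟩, hgood⟩ := exists_badV hΛ hv
  refine ⟨(fun b : ℂ => (b : ℂ ⧸ Λ)) '' B, Pool.Agent.H17G.image_finite hΛ hinv hδ hsep, fun f hf hfU hconst hfB z w => ?_⟩
  have hF : ∀ z, HolP (fun z => (f z).rep) z := fun z => Pool.Agent.H17BP.holP_rep hf (Set.mem_univ z)
  have hval : ∀ z, ((uE Λ u (LE N (f z).rep) : ℂ) : ℂ ⧸ Λ) = u (f z) := by
    intro z
    have h1 : (LE N).symm (LE N (f z).rep) ≠ 0 := by
      rw [ContinuousLinearEquiv.symm_apply_apply]
      exact (f z).rep_nonzero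
    rw [uE_eq Λ u h1]
    congr 1
    simp only [ContinuousLinearEquiv.symm_apply_apply]
    exact Projectivization.mk_rep (f z)
  have hc : uE Λ u (LE N (f 0).rep) ∉ B := fun h => hfB ⟨_, h, hval 0⟩
  have h2 := vert_const hΛ hv (hgood _ hc) (f := fun z => (f z).rep) hF
    (fun z => (rep_mem_locCone hP).2 (hfU z)) (fun z => ?_) z w
  · rw [← Projectivization.mk_rep (f z), ← Projectivization.mk_rep (f w)]
    exact h2.mk_eq (f z).rep_nonzero (f w).rep_nonzero
  · rw [sub_mem_iff, hval, hval]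
    exact hconst z 0

end Pool.Agent.H17V
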