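import Pool.Agent.H17V.Defs
import Pool.Agent.H17V.LogD
import Pool.Agent.H17N.BaseB

/-!
# H17V VBd: the function `Φ` is bounded

* `log_deriv_bd` (LogD): `‖t' (0)‖ ≤ (2 / r) ‖t 0‖ log (1 / ‖t 0‖)` if `0 < ‖t ζ‖ < 1` for `‖ζ‖ < r`.
* `vfun_bd`.  Suppose there are `z_n` with `‖Φ (z_n)‖ → ∞`.  Let `x_n = a_n • H (z_n)`, `‖x_n‖ = 1`; for a subsequence (or along an ultrafilter) `x_n → x₀`, `‖x₀‖ = 1`, `x₀ ∈ X` (`surf.closed`), `u x₀ - c ∈ Λ` (local lift of `u` at `x₀`, discreteness of `Λ`).  `GoodC` at `x₀`: chart `σ, τ`, `σ 0 = x₀`, and `O` from `IsV`.  Let `ξ` be a linear form on `V` with `ξ x₀ = 1`.  The curves have bounded derivative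
  (`fs ≤ C`, with respect to `L`), so there is `r > 0` (independent of `n`) such that for large `n` and `‖ζ‖ < r`: `ξ (H (z_n + ζ)) ≠ 0` and `y_n ζ = (ξ (H (z_n + ζ)))⁻¹ • H (z_n + ζ)` is in a given neighbourhood of `x₀` (the distance in the projective space of `H (z_n + ζ)` and `H (z_n)` is at most a constant times `C r`; see the lemmas on `fs` and `pr` in H62/EF, e.g. the Lipschitz estimate used in `LimL_local`; or a
  continuity argument on the segment from `0` to `ζ`: as long as `y_n` is in a compact neighbourhood of `x₀` its derivative is bounded).  `t_n ζ = (τ (y_n ζ)).2` is holomorphic on the disc, small, and `(τ (y_n ζ)).1 = 0`, and `tco τ (fun ζ => a • H ζ) (z_n + ζ) = t_n ζ` for `ζ` near `0` if `a = (ξ (H z_n))⁻¹` (`inv`).  `Φ (z_n) = loc m Ω σ τ (a • H) (z_n) = t_n' (0) ^ m Ω (σ (0, t_n 0); ..) • σ (0, t_n 0)`.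
  First case `σ p ∈ K` near `0`: `‖t_n' (0)‖` is bounded (Cauchy) and the coefficient is continuous (`form.analytic`): bounded.  Second case `σ p ∉ K ↔ p.2 = 0`: `t_n ζ ≠ 0` for `‖ζ‖ < r` because `H (z_n + ζ) ∈ K`; `PoleLE.pow` (H36/BPL/Defs.lean) with `φ = σ`, `g = p.2`: there is an analytic `b` with `b p = p.2 ^ (m - 1) * Ω (σ p; ..)` for `p.2 ≠ 0` near `0`; so
  `‖Φ (z_n)‖ ≤ C' ‖t_n' (0)‖ ^ m / ‖t_n 0‖ ^ (m - 1) ≤ C'' ‖t_n 0‖ (log (1 / ‖t_n 0‖)) ^ m`, bounded (`x (log (1 / x)) ^ m` is bounded on `(0, 1)`).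
-/

set_option autoImplicit false

open Topology Filter

namespace Pool.Agent.H17V

open Pool.Agent.H17BP (Surface IsChart IsForm NoZeros Pr HolP)
open Pool.Agent.H17N (TMap)
open Pool.Agent.H36.BPL (OpenPart PoleLE)
open Pool.Agent.H36.BP (EN fs wd)
open Pool.Agent.H62.EF (Lat)

variable {V : Type} [NormedAddCommGroup V] [NormedSpace ℂ V] [FiniteDimensional ℂ V] {X K : Set V} {Λ : AddSubgroup ℂ} {u : V → ℂ} {m d M : ℕ}
  {Ω : V → V → V → ℂ} {q : V → ℂ} {c : ℂ}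

omit [FiniteDimensional ℂ V] in
/-- the values at a limit point -/
private theorem VBd_fib (hΛ : Lat Λ) (hu : TMap X Λ u) {𝒰 : Ultrafilter ℕ} {x : ℕ → V} {x₀ : V} (hx : Tendsto x 𝒰 (𝓝 x₀))
    (h : ∀ᶠ n in (𝒰 : Filter ℕ), x n ∈ X ∧ u (x n) - c ∈ Λ) (h0 : x₀ ∈ X) : u x₀ - c ∈ Λ := by
  obtain ⟨v, hv, hv2⟩ := hu.loc x₀ h0
  obtain ⟨δ, hδ, hd⟩ := hΛ.discrete
  have h1 : Tendsto (fun n => v (x n)) 𝒰 (𝓝 (v x₀)) := hv.continuousAt.tendsto.comp hx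
  have h2 : ∀ᶠ n in (𝒰 : Filter ℕ), v (x n) - c ∈ Λ ∧ dist (v (x n)) (v x₀) < δ / 2 := by
    filter_upwards [h, hx.eventually hv2, h1.eventually (Metric.ball_mem_nhds _ (half_pos hδ))] with n e1 e2 e3
    refine ⟨?_, e3⟩
    have h3 := Λ.sub_mem e1.2 (e2 e1.1)
    have h4 : u (x n) - c - (u (x n) - v (x n)) = v (x n) - c := by ring
    rwa [h4] at h3
  obtain ⟨k, hk⟩ := h2.exists
  have h3 : ∀ᶠ n in (𝒰 : Filter ℕ), v (x n) = v (x k) := by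
    filter_upwards [h2] with n hn
    have h4 := Λ.sub_mem hn.1 hk.1
    have h5 : v (x n) - c - (v (x k) - c) = v (x n) - v (x k) := by ring
    rw [h5] at h4
    refine sub_eq_zero.1 (hd _ h4 ?_)
    rw [← dist_eq_norm]
    have h6 := dist_triangle_right (v (x n)) (v (x k)) (v x₀)
    linarith [hn.2, hk.2]
  have h4 : v x₀ = v (x k) := tendsto_nhds_unique h1 (tendsto_const_nhds.congr' (h3.mono fun n hn => hn.symm))
  have h5 := Λ.add_mem (hv2.self_of_nhds h0) hk.1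
  rw [← h4] at h5
  have h6 : u x₀ - v x₀ + (v x₀ - c) = u x₀ - c := by ring
  rwa [h6] at h5

private theorem VBd_snd : Tendsto (fun p : ℂ × ℂ => ((0, p.2) : ℂ × ℂ)) (𝓝 0) (𝓝 0) := by
  have h : Continuous (fun p : ℂ × ℂ => ((0, p.2) : ℂ × ℂ)) := by fun_prop
  exact h.tendsto 0

omit [FiniteDimensional ℂ V] in
/-- the coefficient of the form in a chart -/
private theorem VBd_coef (h : VData X K Λ u m Ω q d) {σ : ℂ × ℂ → V} {τ : V → ℂ × ℂ} (hs : SC X K Λ u c σ τ) : ∃ B S : ℝ, 0 ≤ B ∧ 0 ≤ S ∧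
    (∀ᶠ p in 𝓝 (0 : ℂ × ℂ), ‖σ (0, p.2)‖ ≤ S) ∧
    ((∀ᶠ p in 𝓝 (0 : ℂ × ℂ), ‖Ω (σ (0, p.2)) (fderiv ℂ σ (0, p.2) (1, 0)) (fderiv ℂ σ (0, p.2) (0, 1))‖ ≤ B) ∨
      ((∀ᶠ p in 𝓝 (0 : ℂ × ℂ), p.2 ≠ 0 →
        ‖p.2‖ ^ (m - 1) * ‖Ω (σ (0, p.2)) (fderiv ℂ σ (0, p.2) (1, 0)) (fderiv ℂ σ (0, p.2) (0, 1))‖ ≤ B) ∧
        ∀ᶠ p in 𝓝 (0 : ℂ × ℂ), σ p ∈ K → p.2 ≠ 0)) := by
  have hS : ∀ᶠ p in 𝓝 (0 : ℂ × ℂ), ‖σ (0, p.2)‖ ≤ ‖σ 0‖ + 1 := by
    have h1 : ∀ᶠ p in 𝓝 (0 : ℂ × ℂ), ‖σ p‖ < ‖σ 0‖ + 1 := hs.chart.σ_an.continuousAt.norm.eventually_lt_const (lt_add_one _)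
    exact (VBd_snd.eventually h1).mono fun p hp => hp.le
  rcases hs.bd with hb | hb
  · have h1 := h.form.analytic σ 0 hs.chart.σ_an hb
    refine ⟨‖Ω (σ 0) (fderiv ℂ σ 0 (1, 0)) (fderiv ℂ σ 0 (0, 1))‖ + 1, ‖σ 0‖ + 1, by positivity, by positivity, hS, Or.inl ?_⟩
    exact (VBd_snd.eventually (h1.continuousAt.norm.eventually_lt_const (lt_add_one _))).mono fun p hp => hp.le
  · obtain ⟨b, hb1, hb2⟩ := h.pole.pow hs.chart.σ_an hs.chart.σ_mem (g := fun p => p.2) analyticAt_snd (hb.mono fun p hp hK => hp.1 hK)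
    refine ⟨‖b 0‖ + 1, ‖σ 0‖ + 1, by positivity, by positivity, hS, Or.inr ⟨?_, ?_⟩⟩
    · filter_upwards [VBd_snd.eventually hb, VBd_snd.eventually hb2,
        VBd_snd.eventually (hb1.continuousAt.norm.eventually_lt_const (lt_add_one _))] with p e1 e2 e3 e4
      have h2 : σ (0, p.2) ∈ K := by
        by_contra h3
        exact e4 (e1.1 h3)
      have h4 := e2 h2
      rw [← norm_pow, ← norm_mul, ← h4]
      exact e3.le
    · filter_upwards [hb] with p hp hK h0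
      exact hp.2 h0 hK

private theorem VBd_log {x : ℝ} (h0 : 0 < x) (h1 : x < 1) (m : ℕ) : x * Real.log (1 / x) ^ m ≤ m.factorial := by
  have hy : 0 ≤ Real.log (1 / x) := Real.log_nonneg (by rw [le_div_iff₀ h0]; linarith)
  have h2 : Real.log (1 / x) ^ m / m.factorial ≤ Real.exp (Real.log (1 / x)) := Real.pow_div_factorial_le_exp _ hy m
  rw [Real.exp_log (by positivity)] at h2
  have h3 : (0 : ℝ) < m.factorial := by exact_mod_cast Nat.factorial_pos m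
  rw [div_le_iff₀ h3] at h2
  calc x * Real.log (1 / x) ^ m ≤ x * (1 / x * m.factorial) := by gcongr
    _ = m.factorial := by field_simp

/-- the bound for one curve -/
private theorem VBd_one {r B S : ℝ} (hr : 0 < r) (hB : 0 ≤ B) (hS : 0 ≤ S) (h1 : 1 ≤ m) {t : ℂ → ℂ}
    (ht : DifferentiableOn ℂ t (Metric.ball 0 r)) (ht1 : ∀ ζ ∈ Metric.ball (0 : ℂ) r, ‖t ζ‖ < 1) {w : ℂ} {s : V} (hs : ‖s‖ ≤ S)
    (hw : ‖w‖ ≤ B ∨ ((∀ ζ ∈ Metric.ball (0 : ℂ) r, t ζ ≠ 0) ∧ ‖t 0‖ ^ (m - 1) * ‖w‖ ≤ B)) :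
    ‖(deriv t 0 ^ m * w) • s‖ ≤ (2 / r) ^ m * B * S * (m.factorial + 1) := by
  have hf : (0 : ℝ) ≤ m.factorial := by positivity
  have h0r : (0 : ℂ) ∈ Metric.ball (0 : ℂ) r := Metric.mem_ball_self hr
  rw [norm_smul, norm_mul, norm_pow]
  rcases hw with hw | ⟨hne, hw⟩
  · have h2 : ‖deriv t 0‖ ≤ 1 / (r / 2) := by
      have hsub : Metric.closedBall (0 : ℂ) (r / 2) ⊆ Metric.ball 0 r := Metric.closedBall_subset_ball (by linarith)
      refine Complex.norm_deriv_le_of_forall_mem_sphere_norm_le (by positivity) ?_ ?_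
      · exact (ht.mono hsub).diffContOnCl_ball (by rfl)
      · intro z hz
        exact (ht1 z (hsub (Metric.sphere_subset_closedBall hz))).le
    have h3 : (1 : ℝ) / (r / 2) = 2 / r := by field_simp
    rw [h3] at h2
    calc ‖deriv t 0‖ ^ m * ‖w‖ * ‖s‖ ≤ (2 / r) ^ m * B * S := by gcongr
      _ ≤ (2 / r) ^ m * B * S * (m.factorial + 1) := by
        have h4 : 0 ≤ (2 / r) ^ m * B * S := by positivity
        nlinarith
  · have h2 := log_deriv_bd hr ht hne ht1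
    have hx : 0 < ‖t 0‖ := norm_pos_iff.2 (hne 0 h0r)
    have hx1 := ht1 0 h0r
    have hl : 0 ≤ Real.log (1 / ‖t 0‖) := Real.log_nonneg (by rw [le_div_iff₀ hx]; linarith)
    have h3 := VBd_log hx hx1 m
    have h4 : ‖t 0‖ ^ m = ‖t 0‖ ^ (m - 1) * ‖t 0‖ := by
      rw [← pow_succ]
      congr 1
      omega
    calc ‖deriv t 0‖ ^ m * ‖w‖ * ‖s‖ ≤ (2 / r * (‖t 0‖ * Real.log (1 / ‖t 0‖))) ^ m * ‖w‖ * S := by gcongr
      _ = (2 / r) ^ m * (‖t 0‖ ^ (m - 1) * ‖w‖) * S * (‖t 0‖ * Real.log (1 / ‖t 0‖) ^ m) := by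
        rw [mul_pow, mul_pow, h4]
        ring
      _ ≤ (2 / r) ^ m * B * S * (m.factorial + 1) := by
        have h5 : ‖t 0‖ * Real.log (1 / ‖t 0‖) ^ m ≤ m.factorial + 1 := by linarith
        gcongr

theorem vfun_bd (L : V ≃L[ℂ] EN M) (hΛ : Lat Λ) (h : VData X K Λ u m Ω q d) (hc : GoodC X K Λ u q c) {H : ℂ → V} (hH : Differentiable ℂ H)
    (hHK : ∀ z, H z ∈ K ∧ u (H z) - c ∈ Λ) {C : ℝ} (hC : ∀ z, fs (L (H z)) (deriv (fun ζ => L (H ζ)) z) ≤ C) {Φ : ℂ → V}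
    (hΦ : IsV X K Λ u m Ω c H Φ) : ∃ C' : ℝ, ∀ z, ‖Φ z‖ ≤ C' := by
  by_contra hcon
  push Not at hcon
  choose z hz using fun n : ℕ => hcon n
  obtain ⟨𝒰, h𝒰⟩ : ∃ 𝒰 : Ultrafilter ℕ, (𝒰 : Filter ℕ) ≤ atTop := ⟨hyperfilter ℕ, Nat.hyperfilter_le_atTop⟩
  -- the cone
  obtain ⟨X', hX'⟩ : ∃ X' : Set (EN M), X' = {w | L.symm w ∈ X} := ⟨_, rfl⟩
  have hcone : Pool.Agent.H14.PP.IsCone X' := by
    rw [hX']
    refine ⟨?_, ?_, ?_⟩
    · show ¬ (L.symm 0 ∈ X)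
      rw [map_zero]
      exact h.surf.zero
    · intro x hx c hc0
      show L.symm (c • x) ∈ X
      rw [map_smul]
      exact h.surf.smul _ hx c hc0
    · rw [← closure_subset_iff_isClosed]
      intro w hw
      by_cases hw0 : w = 0
      · exact Or.inl hw0
      · right
        have h1 : w ∈ closure {w : EN M | L.symm w ∈ X} := by
          rw [Set.insert_eq, closure_union, closure_singleton] at hw
          rcases hw with hw | hw
          · exact absurd hw hw0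
          · exact hw
        have h2 : L.symm w ∈ closure X := by
          have h3 : Set.MapsTo L.symm {w : EN M | L.symm w ∈ X} X := fun y hy => hy
          exact h3.closure L.symm.continuous h1
        exact h.surf.closed _ h2 (fun h3 => hw0 (by simpa using h3))
  -- the curves
  have hLH : Differentiable ℂ (fun ζ => L (H ζ)) := L.differentiable.comp hH
  have hρ : Tendsto (fun n : ℕ => (n : ℝ)) 𝒰 atTop := tendsto_natCast_atTop_atTop.mono_left h𝒰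
  obtain ⟨G, -, hGX, -, -, hloc⟩ := Pool.Agent.H62.EF.limit_curves hcone (L := max C 1) (lt_of_lt_of_le one_pos (le_max_right _ _)) 𝒰
    (fun n ζ => L (H (z n + ζ))) (fun n => (n : ℝ)) hρ (Eventually.of_forall fun n => by
      refine ⟨(hLH.comp ((differentiable_const _).add differentiable_id)).differentiableOn, fun w _ => ⟨?_, ?_⟩⟩
      · rw [hX']
        show L.symm (L (H (z n + w))) ∈ X
        rw [ContinuousLinearEquiv.symm_apply_apply]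
        exact h.opn.sub (hHK _).1
      · have h1 : deriv (fun ζ => L (H (z n + ζ))) w = deriv (fun ζ => L (H ζ)) (z n + w) :=
          deriv_comp_const_add (fun ζ => L (H ζ)) (z n) w
        rw [h1]
        exact (hC _).trans (le_max_left _ _))
  obtain ⟨r, φ, ψ, hr, hφ, hψd, hψG, hconv⟩ := hloc 0
  have h0r : (0 : ℂ) ∈ Metric.ball (0 : ℂ) r := Metric.mem_ball_self hr
  have hLX : ∀ w, w ∈ X' → L.symm w ∈ X := fun w hw => by
    rw [hX'] at hw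
    exact hw
  have hx₀ : L.symm (ψ 0) ∈ X := by
    obtain ⟨a, ha, ha2⟩ := hψG 0 h0r
    rw [ha2, map_smul]
    exact h.surf.smul _ (hLX _ (hGX 0)) a ha
  have hφ0 : Tendsto (fun n => L.symm (φ n 0)) 𝒰 (𝓝 (L.symm (ψ 0))) :=
    (L.symm.continuous.tendsto _).comp (hconv.tendsto_at h0r)
  have hφH : ∀ᶠ n in (𝒰 : Filter ℕ), ∀ ζ ∈ Metric.ball (0 : ℂ) r, ∃ a : ℂ, a ≠ 0 ∧ L.symm (φ n ζ) = a • H (z n + ζ) := by
    filter_upwards [hφ] with n hn ζ hζ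
    obtain ⟨a, ha, ha2⟩ := hn.2 ζ hζ
    refine ⟨a, ha, ?_⟩
    rw [ha2, map_smul, ContinuousLinearEquiv.symm_apply_apply]
  have hux₀ : u (L.symm (ψ 0)) - c ∈ Λ := by
    refine VBd_fib hΛ h.tor hφ0 ?_ hx₀
    filter_upwards [hφH] with n hn
    obtain ⟨a, ha, ha2⟩ := hn 0 h0r
    rw [ha2, add_zero]
    refine ⟨h.surf.smul _ (h.opn.sub (hHK _).1) a ha, ?_⟩
    have h1 := Λ.add_mem (h.tor.smul _ (h.opn.sub (hHK (z n)).1) a ha) (hHK (z n)).2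
    have h2 : u (a • H (z n)) - u (H (z n)) + (u (H (z n)) - c) = u (a • H (z n)) - c := by ring
    rwa [h2] at h1
  -- the chart
  obtain ⟨σ, τ, hs, hσ0, -⟩ := hc _ hx₀ hux₀
  obtain ⟨O, hO, hΦO⟩ := hΦ σ τ hs
  obtain ⟨B, S, hB, hS, hσS, hcoef⟩ := VBd_coef h hs
  rw [hσ0] at hO
  have hch := hs.chart
  have hτ0 : τ (σ 0) = 0 := hch.left.self_of_nhds
  have hτt : Tendsto τ (𝓝 (L.symm (ψ 0))) (𝓝 0) := by
    have h1 := hch.τ_an.continuousAt.tendsto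
    rwa [hτ0, hσ0] at h1
  have hinv : ∀ᶠ y in 𝓝 (L.symm (ψ 0)), ∀ᶠ p in 𝓝 (y, (1 : ℂ)), τ (p.2 • p.1) = τ p.1 := by
    have h1 : Tendsto (fun y : V => (y, (1 : ℂ))) (𝓝 (L.symm (ψ 0))) (𝓝 (σ 0, (1 : ℂ))) := by
      have h2 : Continuous (fun y : V => (y, (1 : ℂ))) := by fun_prop
      have h3 := h2.tendsto (L.symm (ψ 0))
      rwa [← hσ0] at h3 ⊢
    exact h1.eventually hch.inv.eventually_nhds
  have hsmall : ∀ᶠ p in 𝓝 (0 : ℂ × ℂ), ‖p.2‖ < 1 := by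
    have h1 : Continuous (fun p : ℂ × ℂ => ‖p.2‖) := by fun_prop
    have h2 := h1.tendsto 0
    simp only [Prod.snd_zero, norm_zero] at h2
    exact h2.eventually_lt_const one_pos
  have hτan : ∀ᶠ y in 𝓝 (L.symm (ψ 0)), AnalyticAt ℂ τ y := by
    have h1 := hch.τ_an.eventually_analyticAt
    rwa [hσ0] at h1
  have hright : ∀ᶠ y in 𝓝 (L.symm (ψ 0)), y ∈ X → ∃ c : ℂ, c ≠ 0 ∧ y = c • σ (τ y) := by
    have h1 := hch.right
    rwa [hσ0] at h1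
  -- all together: the neighbourhood
  have hnear : ∀ P : V → Prop, (∀ᶠ y in 𝓝 (L.symm (ψ 0)), P y) →
      ∃ r' > 0, r' ≤ r ∧ ∀ᶠ n in (𝒰 : Filter ℕ), ∀ ζ ∈ Metric.ball (0 : ℂ) r', P (L.symm (φ n ζ)) := by
    intro P hP
    have h1 : ∀ᶠ w in 𝓝 (ψ 0), P (L.symm w) := (L.symm.continuous.tendsto (ψ 0)).eventually hP
    obtain ⟨ε, hε, hε2⟩ := Metric.eventually_nhds_iff_ball.1 h1
    have hψc : ContinuousAt ψ 0 := (hψd.differentiableAt (Metric.ball_mem_nhds 0 hr)).continuousAt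
    have h2 : ∀ᶠ ζ in 𝓝 (0 : ℂ), dist (ψ ζ) (ψ 0) < ε / 2 := hψc.eventually (Metric.ball_mem_nhds _ (half_pos hε))
    obtain ⟨t, ht, ht2⟩ := Metric.tendstoLocallyUniformlyOn_iff.1 hconv (ε / 2) (half_pos hε) 0 h0r
    rw [nhdsWithin_eq_nhds.2 (Metric.ball_mem_nhds 0 hr)] at ht
    obtain ⟨r1, hr1, hr2⟩ := Metric.mem_nhds_iff.1 (Filter.inter_mem ht h2)
    refine ⟨min r1 r, lt_min hr1 hr, min_le_right _ _, ?_⟩
    filter_upwards [ht2] with n hn ζ hζ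
    have h3 := hr2 (Metric.ball_subset_ball (min_le_left _ _) hζ)
    refine hε2 _ ?_
    rw [Metric.mem_ball]
    calc dist (φ n ζ) (ψ 0) ≤ dist (φ n ζ) (ψ ζ) + dist (ψ ζ) (ψ 0) := dist_triangle _ _ _
      _ < ε / 2 + ε / 2 := by
        refine add_lt_add ?_ h3.2
        rw [dist_comm]
        exact hn ζ h3.1
      _ = ε := by ring
  -- the bound
  have hone : ∀ (n : ℕ) (r' : ℝ), 0 < r' → r' ≤ r → DifferentiableOn ℂ (φ n) (Metric.ball 0 r) →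
      (∀ ζ ∈ Metric.ball (0 : ℂ) r, ∃ a : ℂ, a ≠ 0 ∧ L.symm (φ n ζ) = a • H (z n + ζ)) →
      (∀ ζ ∈ Metric.ball (0 : ℂ) r', L.symm (φ n ζ) ∈ O ∧ AnalyticAt ℂ τ (L.symm (φ n ζ)) ∧
        (∀ᶠ p in 𝓝 (L.symm (φ n ζ), (1 : ℂ)), τ (p.2 • p.1) = τ p.1) ∧ ‖(τ (L.symm (φ n ζ))).2‖ < 1 ∧
        ‖σ (0, (τ (L.symm (φ n ζ))).2)‖ ≤ S) →
      (‖Ω (σ (0, (τ (L.symm (φ n 0))).2)) (fderiv ℂ σ (0, (τ (L.symm (φ n 0))).2) (1, 0)) (fderiv ℂ σ (0, (τ (L.symm (φ n 0))).2) (0, 1))‖ ≤ B ∨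
        ((∀ ζ ∈ Metric.ball (0 : ℂ) r', (τ (L.symm (φ n ζ))).2 ≠ 0) ∧ ‖(τ (L.symm (φ n 0))).2‖ ^ (m - 1) *
          ‖Ω (σ (0, (τ (L.symm (φ n 0))).2)) (fderiv ℂ σ (0, (τ (L.symm (φ n 0))).2) (1, 0)) (fderiv ℂ σ (0, (τ (L.symm (φ n 0))).2) (0, 1))‖ ≤ B)) →
      ‖Φ (z n)‖ ≤ (2 / r') ^ m * B * S * (m.factorial + 1) := by
    intro n r' hr' hrr hφd hφa hgood hw
    have h0r' : (0 : ℂ) ∈ Metric.ball (0 : ℂ) r' := Metric.mem_ball_self hr'
    have hsub : Metric.ball (0 : ℂ) r' ⊆ Metric.ball 0 r := Metric.ball_subset_ball hrr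
    obtain ⟨t, ht⟩ : ∃ t : ℂ → ℂ, t = fun ζ => (τ (L.symm (φ n ζ))).2 := ⟨_, rfl⟩
    have hyd : ∀ ζ ∈ Metric.ball (0 : ℂ) r', DifferentiableAt ℂ (fun ζ => L.symm (φ n ζ)) ζ := fun ζ hζ =>
      L.symm.differentiableAt.comp ζ (hφd.differentiableAt (Metric.isOpen_ball.mem_nhds (hsub hζ)))
    have htd : DifferentiableOn ℂ t (Metric.ball 0 r') := by
      intro ζ hζ
      rw [ht]
      have h1 : DifferentiableAt ℂ (fun ζ => τ (L.symm (φ n ζ))) ζ :=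
        DifferentiableAt.comp ζ (hgood ζ hζ).2.1.differentiableAt (hyd ζ hζ)
      exact (differentiableAt_snd.comp ζ h1).differentiableWithinAt
    obtain ⟨a, ha, ha2⟩ := hφa 0 h0r
    rw [add_zero] at ha2
    have hHz : H (z n) ≠ 0 := fun h1 => h.surf.zero (by rw [← h1]; exact h.opn.sub (hHK _).1)
    -- the second coordinate
    have hco : (fun ζ => tco τ (fun ζ => a • H ζ) (z n + ζ)) =ᶠ[𝓝 0] t := by
      obtain ⟨ξ, -, hξ⟩ := exists_dual_vector ℂ (H (z n)) (norm_ne_zero_iff.mpr hHz)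
      have hξ0 : ξ (H (z n)) ≠ 0 := by
        rw [hξ]
        simpa using hHz
      have hHc : ContinuousAt (fun ζ => H (z n + ζ)) 0 := by
        have h1 : Continuous (fun ζ => H (z n + ζ)) := hH.continuous.comp (by fun_prop)
        exact h1.continuousAt
      have hξc : ContinuousAt (fun ζ => ξ (H (z n + ζ))) 0 := ξ.continuous.continuousAt.comp hHc
      have hyc : ContinuousAt (fun ζ => L.symm (φ n ζ)) 0 := (hyd 0 h0r').continuousAt
      have hyξ : ContinuousAt (fun ζ => ξ (L.symm (φ n ζ))) 0 := ξ.continuous.continuousAt.comp hyc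
      have hne : ξ (H (z n + 0)) ≠ 0 := by rw [add_zero]; exact hξ0
      have hyne : ξ (L.symm (φ n 0)) ≠ 0 := by
        rw [ha2, map_smul, smul_eq_mul]
        exact mul_ne_zero ha hξ0
      have hcr : ContinuousAt (fun ζ => (L.symm (φ n ζ), a * ξ (H (z n + ζ)) / ξ (L.symm (φ n ζ)))) 0 :=
        hyc.prodMk ((continuousAt_const.mul hξc).div hyξ hyne)
      have hval : a * ξ (H (z n + 0)) / ξ (L.symm (φ n 0)) = 1 := by
        rw [add_zero, ha2, map_smul, smul_eq_mul]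
        exact div_self (mul_ne_zero ha hξ0)
      have hev := (hgood 0 h0r').2.2.1
      rw [← hval] at hev
      filter_upwards [hcr.eventually hev, hξc.eventually_ne hne, hyξ.eventually_ne hyne, Metric.ball_mem_nhds (0 : ℂ) hr] with ζ e1 e2 e3 e4
      obtain ⟨b, hb, hb2⟩ := hφa ζ e4
      show (τ (a • H (z n + ζ))).2 = t ζ
      rw [ht]
      simp only at e1 ⊢
      rw [← e1]
      congr 2
      have h2 : ξ (L.symm (φ n ζ)) = b * ξ (H (z n + ζ)) := by rw [hb2, map_smul, smul_eq_mul]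
      rw [h2]
      have h3 : a * ξ (H (z n + ζ)) / (b * ξ (H (z n + ζ))) = a / b := by
        field_simp
      rw [h3, hb2, smul_smul, div_mul_cancel₀ _ hb]
    have hderiv : deriv (tco τ (fun ζ => a • H ζ)) (z n) = deriv t 0 := by
      rw [← hco.deriv_eq]
      have h1 := deriv_comp_const_add (tco τ (fun ζ => a • H ζ)) (z n) 0
      rw [add_zero] at h1
      exact h1.symm
    have hval : tco τ (fun ζ => a • H ζ) (z n) = t 0 := by
      have h1 := hco.self_of_nhds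
      simp only [add_zero] at h1
      exact h1
    have hmem : a • H (z n) ∈ O := by
      rw [← ha2]
      exact (hgood 0 h0r').1
    rw [hΦO (z n) a ha hmem]
    unfold loc
    rw [hderiv, hval]
    have ht0 : t 0 = (τ (L.symm (φ n 0))).2 := by rw [ht]
    refine VBd_one hr' hB hS h.one htd ?_ ?_ ?_
    · intro ζ hζ
      rw [ht]
      exact (hgood ζ hζ).2.2.2.1
    · rw [ht0]
      exact (hgood 0 h0r').2.2.2.2
    · rw [ht0]
      rcases hw with hw | ⟨hw1, hw2⟩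
      · exact Or.inl hw
      · refine Or.inr ⟨fun ζ hζ => ?_, hw2⟩
        rw [ht]
        exact hw1 ζ hζ
  -- the end
  have hend : ∀ r' : ℝ, ¬ ∀ᶠ n in (𝒰 : Filter ℕ), ‖Φ (z n)‖ ≤ (2 / r') ^ m * B * S * (m.factorial + 1) := by
    intro r' h1
    obtain ⟨n, hn1, hn2⟩ := (h1.and (hρ.eventually_gt_atTop ((2 / r') ^ m * B * S * (m.factorial + 1)))).exists
    have h2 := hz n
    linarith
  have hbase : ∀ᶠ y in 𝓝 (L.symm (ψ 0)), y ∈ O ∧ AnalyticAt ℂ τ y ∧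
        (∀ᶠ p in 𝓝 (y, (1 : ℂ)), τ (p.2 • p.1) = τ p.1) ∧ ‖(τ y).2‖ < 1 ∧ ‖σ (0, (τ y).2)‖ ≤ S := by
    filter_upwards [hO, hτan, hinv, hτt.eventually hsmall, hτt.eventually hσS] with y e1 e2 e3 e4 e5
    exact ⟨e1, e2, e3, e4, e5⟩
  rcases hcoef with hcoef | ⟨hcoef, hK⟩
  · obtain ⟨r', hr', hrr, hev⟩ := hnear _ (hbase.and (hτt.eventually hcoef))
    refine hend r' ?_
    filter_upwards [hev, hφ, hφH] with n e1 e2 e3
    exact hone n r' hr' hrr e2.1 e3 (fun ζ hζ => (e1 ζ hζ).1) (Or.inl (e1 0 (Metric.mem_ball_self hr')).2)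
  · obtain ⟨r', hr', hrr, hev⟩ := hnear _ (hbase.and ((hτt.eventually hcoef).and ((hτt.eventually hK).and hright)))
    refine hend r' ?_
    filter_upwards [hev, hφ, hφH] with n e1 e2 e3
    have hne : ∀ ζ ∈ Metric.ball (0 : ℂ) r', (τ (L.symm (φ n ζ))).2 ≠ 0 := by
      intro ζ hζ
      obtain ⟨-, -, h3, h4⟩ := e1 ζ hζ
      obtain ⟨a, ha, ha2⟩ := e3 ζ (Metric.ball_subset_ball hrr hζ)
      have hyK : L.symm (φ n ζ) ∈ K := by
        rw [ha2]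
        exact h.opn.smul _ (hHK _).1 a ha
      obtain ⟨b, hb, hb2⟩ := h4 (h.opn.sub hyK)
      refine h3 ?_
      have h5 : σ (τ (L.symm (φ n ζ))) = b⁻¹ • L.symm (φ n ζ) := by
        conv_rhs => rw [hb2]
        rw [smul_smul, inv_mul_cancel₀ hb, one_smul]
      rw [h5]
      exact h.opn.smul _ hyK _ (inv_ne_zero hb)
    have h0r' := Metric.mem_ball_self (x := (0 : ℂ)) hr'
    exact hone n r' hr' hrr e2.1 e3 (fun ζ hζ => (e1 ζ hζ).1) (Or.inr ⟨hne, (e1 0 h0r').2.1 (hne 0 h0r')⟩)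

end Pool.Agent.H17V
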