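import Pool.Agent.H17V.Defs
import Pool.Agent.H17L.CfT

/-!
# H17V VFun: the form on the derivative of a curve in a fibre is holomorphic

`H` is a curve in `K` over `c`; for a straight chart `σ, τ` (`SC`) and `a • H z` near `σ 0`: `a • H ζ = A ζ • σ (0, t ζ)` near `z`, `t = tco τ (a • H)` analytic, and `loc` is `t' (z) ^ m Ω (σ (0, t); ∂_s σ, ∂_t σ) • σ (0, t)`.

* one chart: for `y ∈ X` near `σ 0` with `u y - c ∈ Λ`: `τ y = (s, t)` with `s ∈ Λ` small (`lift`, `tor.smul`, `right`), so `s = 0`.  The set `O` is chosen such that for `y ∈ O ∩ X`: `y = a' • σ (τ y)`, `τ y` in a small bidisc in which `σ`, `lift`, `bd` are valid at all points and `σ (p + ·)` is a chart (`IsChart.near`).  Then `ζ ↦ loc m Ω σ τ (a • H) ζ` is analytic at `z` if `a • H z ∈ O` (`form.analytic` for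
  `φ = σ` at the point `(0, t z)`, `σ (0, t z) ∈ K`).
* two charts `σ, τ` and `σ', τ'`, `a • H z ∈ O`, `a' • H z ∈ O'`: the values of `loc` agree.  Let `p = τ (a • H z) = (0, t)`, `p' = τ' (a' • H z) = (0, t')`.  `σ' p'` is a multiple of `σ p`; `IsChart.trans` (H17BP/ChLem.lean) for the charts `σ (p + ·)`, `σ' (p' + ·)`: `σ' (p' + y)` is a multiple of `σ (p + θ y)`, `θ` biholomorphic, and `(θ y).1 = y.1` near `0` (both are `u - c` modulo `Λ`, continuous, `0` at `0`).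
  So for `ζ` near `z`: `tco τ (a • H) ζ = t + (θ (0, tco τ' (a' • H) ζ - t')).2` and the derivative is `κ * deriv (tco τ' (a' • H)) z`, `κ = ∂_t θ₂ (0)`, the determinant of `Dθ (0)` is `κ` (`θ₁ = s`).  The form: `Ω (σ' p'; ∂_s σ', ∂_t σ') • σ' p' = κ ^ m Ω (σ p; ∂_s σ, ∂_t σ) • σ p`: `σ' (p' + y) = b (y) • σ (p + θ y)`, `b` analytic (`b y = ξ (σ' (p' + y)) / ξ (σ (p + θ y))`, `ξ` a linear form with
  `ξ (σ p) ≠ 0`), `scale`, `add_smul`, `det` of `IsForm K m 1 Ω` (pattern: `cf_trans` in H17L/CfT.lean, the private `form_mul`, `form_well` in EG/HyAn.lean).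
* `exists_vfun`: for every `z` choose by `GoodC` a chart `σ_z, τ_z` with `σ_z 0 = H z` and put `Φ z = loc m Ω σ_z τ_z H z` (`a = 1`).  By the two charts lemma `Φ z = loc m Ω σ τ (a • H) z` whenever `a • H z ∈ O`; in particular `Φ ζ = loc m Ω σ_z τ_z H ζ` for `ζ` near `z`, so `Φ` is analytic.
-/

set_option autoImplicit false

open Topology Filter

namespace Pool.Agent.H17V

open Pool.Agent.H17BP (Surface IsChart IsForm NoZeros Pr HolP)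
open Pool.Agent.H17N (TMap)
open Pool.Agent.H36.BPL (OpenPart PoleLE)
open Pool.Agent.H62.EF (Lat)

variable {V : Type} [NormedAddCommGroup V] [NormedSpace ℂ V] [FiniteDimensional ℂ V] {X K : Set V} {Λ : AddSubgroup ℂ} {u : V → ℂ} {m d : ℕ}
  {Ω : V → V → V → ℂ} {q : V → ℂ} {c : ℂ}

omit [FiniteDimensional ℂ V] in
/-- `w` is a velocity of `K` at `x` on which `du` is `1` -/
private def VFun_U (K : Set V) (Λ : AddSubgroup ℂ) (u : V → ℂ) (x w : V) : Prop :=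
  ∃ γ : ℂ → V, AnalyticAt ℂ γ 0 ∧ (∀ᶠ ζ in 𝓝 (0 : ℂ), γ ζ ∈ K) ∧ γ 0 = x ∧ deriv γ 0 = w ∧ ∀ᶠ ζ in 𝓝 (0 : ℂ), u (γ ζ) - u x - ζ ∈ Λ

omit [FiniteDimensional ℂ V] in
private theorem VFun_dual {x : V} (hx : x ≠ 0) : ∃ ξ : V →L[ℂ] ℂ, ξ x ≠ 0 := by
  obtain ⟨ξ, hξ⟩ := exists_dual_vector ℂ x (norm_ne_zero_iff.mpr hx)
  refine ⟨ξ, ?_⟩
  rw [hξ.2]
  simpa using hx

private theorem VFun_rep {σ : ℂ × ℂ → V} {τ : V → ℂ × ℂ} (hc : IsChart X σ τ) :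
    ∀ᶠ y in 𝓝 (σ 0), ∀ (G : ℂ → V) (z₀ : ℂ), AnalyticAt ℂ G z₀ → G z₀ = y → (∀ᶠ ζ in 𝓝 z₀, G ζ ∈ X) →
      AnalyticAt ℂ (fun ζ => τ (G ζ)) z₀ ∧ ∃ B : ℂ → ℂ, AnalyticAt ℂ B z₀ ∧ ∀ᶠ ζ in 𝓝 z₀, B ζ ≠ 0 ∧ G ζ = B ζ • σ (τ (G ζ)) := by
  have : CompleteSpace V := FiniteDimensional.complete ℂ V
  have hτ : Tendsto τ (𝓝 (σ 0)) (𝓝 0) := by
    have h1 := hc.τ_an.continuousAt.tendsto
    rwa [hc.left.self_of_nhds] at h1
  filter_upwards [hc.τ_an.eventually_analyticAt, eventually_eventually_nhds.2 hc.right, hτ.eventually hc.σ_an.eventually_analyticAt,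
    hτ.eventually (hc.σ_an.continuousAt.eventually_ne hc.ne)] with y h1 h2 h3 h4 G z₀ hG hy hGX
  subst hy
  have hτG : AnalyticAt ℂ (fun ζ => τ (G ζ)) z₀ := AnalyticAt.fun_comp h1 hG
  have hσG : AnalyticAt ℂ (fun ζ => σ (τ (G ζ))) z₀ := AnalyticAt.fun_comp (g := σ) (f := fun ζ => τ (G ζ)) h3 hτG
  obtain ⟨ξ, hξ⟩ := VFun_dual h4
  have hnum : AnalyticAt ℂ (fun ζ => ξ (G ζ)) z₀ := AnalyticAt.fun_comp (ξ.analyticAt (G z₀)) hG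
  have hden : AnalyticAt ℂ (fun ζ => ξ (σ (τ (G ζ)))) z₀ := AnalyticAt.fun_comp (g := ξ) (f := fun ζ => σ (τ (G ζ))) (ξ.analyticAt _) hσG
  refine ⟨hτG, fun ζ => ξ (G ζ) / ξ (σ (τ (G ζ))), hnum.fun_div hden hξ, ?_⟩
  filter_upwards [hG.continuousAt.tendsto.eventually h2, hGX, hden.continuousAt.eventually_ne hξ] with ζ g1 g2 g3
  obtain ⟨b, hb, g4⟩ := g1 g2
  have g5 : ξ (G ζ) = b * ξ (σ (τ (G ζ))) := by
    conv_lhs => rw [g4]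
    rw [map_smul, smul_eq_mul]
  have g6 : ξ (G ζ) / ξ (σ (τ (G ζ))) = b := by
    rw [g5, mul_div_assoc, div_self g3, mul_one]
  rw [g6]
  exact ⟨hb, g4⟩

omit [FiniteDimensional ℂ V] in
private theorem VFun_lin (l : ℂ × ℂ →L[ℂ] V) (e : ℂ × ℂ) : l e = e.1 • l (1, 0) + e.2 • l (0, 1) := by
  have h1 : e = e.1 • ((1 : ℂ), (0 : ℂ)) + e.2 • ((0 : ℂ), (1 : ℂ)) := by
    ext <;> simp
  conv_lhs => rw [h1]
  rw [map_add, map_smul, map_smul]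

omit [FiniteDimensional ℂ V] in
private theorem VFun_deriv {γ : ℂ → V} {B : ℂ → ℂ} {σ : ℂ × ℂ → V} {P : ℂ → ℂ × ℂ} {z₀ : ℂ} (hB : AnalyticAt ℂ B z₀) (hP : AnalyticAt ℂ P z₀)
    (hσ : AnalyticAt ℂ σ (P z₀)) (h : ∀ᶠ ζ in 𝓝 z₀, γ ζ = B ζ • σ (P ζ)) :
    deriv γ z₀ = B z₀ • ((deriv P z₀).1 • fderiv ℂ σ (P z₀) (1, 0) + (deriv P z₀).2 • fderiv ℂ σ (P z₀) (0, 1)) + deriv B z₀ • σ (P z₀) := by
  have h7 : HasDerivAt (fun ζ => σ (P ζ)) (fderiv ℂ σ (P z₀) (deriv P z₀)) z₀ :=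
    hσ.differentiableAt.hasFDerivAt.comp_hasDerivAt z₀ hP.differentiableAt.hasDerivAt
  have h5 : γ =ᶠ[𝓝 z₀] fun ζ => B ζ • σ (P ζ) := h
  rw [h5.deriv_eq, (hB.differentiableAt.hasDerivAt.fun_smul h7).deriv, VFun_lin]

omit [FiniteDimensional ℂ V] in
private theorem VFun_tan {σ : ℂ × ℂ → V} {P : ℂ × ℂ} (hσ : AnalyticAt ℂ σ P) (hK : ∀ᶠ q in 𝓝 P, σ q ∈ K)
    (hsm : ∀ x ∈ K, ∀ c : ℂ, c ≠ 0 → c • x ∈ K) {A : ℂ} (hA : A ≠ 0) (e : ℂ × ℂ) :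
    A • fderiv ℂ σ P e ∈ Pool.Agent.H17BP.Tan K (A • σ P) := by
  have hl : HasDerivAt (fun z : ℂ => P + z • e) e 0 := by
    have h2 := ((hasDerivAt_id (0 : ℂ)).smul_const e).const_add P
    simpa using h2
  have hla : AnalyticAt ℂ (fun z : ℂ => P + z • e) 0 := analyticAt_const.add (analyticAt_id.smul analyticAt_const)
  have h0 : P + (0 : ℂ) • e = P := by rw [zero_smul, add_zero]
  have h3 : Tendsto (fun z : ℂ => P + z • e) (𝓝 (0 : ℂ)) (𝓝 P) := by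
    have h4 := hla.continuousAt.tendsto
    rwa [h0] at h4
  have hσ' : AnalyticAt ℂ σ (P + (0 : ℂ) • e) := by
    rw [h0]
    exact hσ
  refine ⟨fun z => A • σ (P + z • e), ?_, ?_, by simp, ?_⟩
  · exact (AnalyticAt.fun_comp (g := σ) (f := fun z : ℂ => P + z • e) hσ' hla).const_smul (c := A)
  · filter_upwards [h3.eventually hK] with z hz
    exact hsm _ hz A hA
  · have h5 := (hσ'.differentiableAt.hasFDerivAt.comp_hasDerivAt (0 : ℂ) hl).const_smul A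
    rw [h0] at h5
    exact h5.deriv

omit [FiniteDimensional ℂ V] in
private theorem VFun_form (hΩ : IsForm K m 1 Ω) {σ : ℂ × ℂ → V} {P : ℂ × ℂ} (hσ : AnalyticAt ℂ σ P) (hK : ∀ᶠ q in 𝓝 P, σ q ∈ K)
    (hsm : ∀ x ∈ K, ∀ c : ℂ, c ≠ 0 → c • x ∈ K) {A : ℂ} (hA : A ≠ 0) (κ b b' t' : ℂ) :
    Ω (A • σ P) (A • ((1 : ℂ) • fderiv ℂ σ P (1, 0) + κ • fderiv ℂ σ P (0, 1)) + b • σ P)
      (A • ((0 : ℂ) • fderiv ℂ σ P (1, 0) + t' • fderiv ℂ σ P (0, 1)) + b' • σ P) • (A • σ P) =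
      (t' ^ m * Ω (σ P) (fderiv ℂ σ P (1, 0)) (fderiv ℂ σ P (0, 1))) • σ P := by
  have hx : A • σ P ∈ K := hsm _ hK.self_of_nhds A hA
  have e1 := VFun_tan hσ hK hsm hA (1, 0)
  have e2 := VFun_tan hσ hK hsm hA (0, 1)
  have e3 : ∀ s t : ℂ, A • (s • fderiv ℂ σ P (1, 0) + t • fderiv ℂ σ P (0, 1)) = s • (A • fderiv ℂ σ P (1, 0)) + t • (A • fderiv ℂ σ P (0, 1)) := by
    intro s t
    rw [smul_add, smul_comm A s, smul_comm A t]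
  have e4 : ∀ s t : ℂ, A • (s • fderiv ℂ σ P (1, 0) + t • fderiv ℂ σ P (0, 1)) ∈ Pool.Agent.H17BP.Tan K (A • σ P) := by
    intro s t
    have := VFun_tan hσ hK hsm hA (s, t)
    rwa [VFun_lin] at this
  have e5 : ∀ s : ℂ, s • σ P = (s * A⁻¹) • (A • σ P) := by
    intro s
    rw [smul_smul, mul_assoc, inv_mul_cancel₀ hA, mul_one]
  rw [e5 b, e5 b', hΩ.add_smul _ hx _ (e4 1 κ) _ (e4 0 t'), e3, e3, hΩ.det _ hx _ e1 _ e2]
  have t1 : fderiv ℂ σ P (1, 0) ∈ Pool.Agent.H17BP.Tan K (σ P) := by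
    have := VFun_tan hσ hK hsm one_ne_zero (1, 0)
    rwa [one_smul, one_smul] at this
  have t2 : fderiv ℂ σ P (0, 1) ∈ Pool.Agent.H17BP.Tan K (σ P) := by
    have := VFun_tan hσ hK hsm one_ne_zero (0, 1)
    rwa [one_smul, one_smul] at this
  have h1 := hΩ.scale _ hK.self_of_nhds _ t1 _ t2 A hA
  rw [pow_one] at h1
  rw [← h1, smul_smul]
  congr 1
  ring

private theorem VFun_lat (hΛ : Lat Λ) {f : ℂ → ℂ} {z₀ : ℂ} (hf : ContinuousAt f z₀) (h0 : f z₀ = 0) (h : ∀ᶠ ζ in 𝓝 z₀, f ζ ∈ Λ) :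
    ∀ᶠ ζ in 𝓝 z₀, f ζ = 0 := by
  obtain ⟨δ, hδ, hd⟩ := hΛ.discrete
  have h1 : Tendsto f (𝓝 z₀) (𝓝 0) := by
    have := hf.tendsto
    rwa [h0] at this
  filter_upwards [h, h1.eventually (Metric.ball_mem_nhds (0 : ℂ) hδ)] with ζ g1 g2
  exact hd _ g1 (by simpa using g2)

private theorem VFun_core (hΛ : Lat Λ) (h : VData X K Λ u m Ω q d) {σ : ℂ × ℂ → V} {τ : V → ℂ × ℂ} (hs : SC X K Λ u c σ τ) {H : ℂ → V}
    (hH : Differentiable ℂ H) (hHK : ∀ z, H z ∈ K ∧ u (H z) - c ∈ Λ) :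
    ∃ O ∈ 𝓝 (σ 0), ∀ z a : ℂ, a ≠ 0 → a • H z ∈ O →
      (∃ w, VFun_U K Λ u (H z) w) ∧ (∀ w, VFun_U K Λ u (H z) w → Ω (H z) w (deriv H z) • H z = loc m Ω σ τ (fun ζ => a • H ζ) z) ∧
      AnalyticAt ℂ (loc m Ω σ τ (fun ζ => a • H ζ)) z := by
  have : CompleteSpace V := FiniteDimensional.complete ℂ V
  have hc := hs.chart
  have hτ : Tendsto τ (𝓝 (σ 0)) (𝓝 0) := by
    have h1 := hc.τ_an.continuousAt.tendsto
    rwa [hc.left.self_of_nhds] at h1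
  obtain ⟨δ, hδ, hd⟩ := hΛ.discrete
  have hG : ∀ᶠ p in 𝓝 (0 : ℂ × ℂ), AnalyticAt ℂ σ p ∧ (∀ᶠ q in 𝓝 p, σ q ∈ X) ∧ (∀ᶠ q in 𝓝 p, u (σ q) - (c + q.1) ∈ Λ) ∧ ‖p.1‖ < δ ∧ σ p ≠ 0 := by
    have h1 : ∀ᶠ p in 𝓝 (0 : ℂ × ℂ), ‖p.1‖ < δ := by
      have h2 : Tendsto (fun p : ℂ × ℂ => p.1) (𝓝 0) (𝓝 0) := continuous_fst.tendsto (0 : ℂ × ℂ)
      filter_upwards [h2.eventually (Metric.ball_mem_nhds (0 : ℂ) hδ)] with p hp
      simpa using hp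
    filter_upwards [hc.σ_an.eventually_analyticAt, eventually_eventually_nhds.2 hc.σ_mem, eventually_eventually_nhds.2 hs.lift, h1,
      hc.σ_an.continuousAt.eventually_ne hc.ne] with p a1 a2 a3 a4 a5
    exact ⟨a1, a2, a3, a4, a5⟩
  refine ⟨_, (VFun_rep hc).and (hτ.eventually hG), ?_⟩
  rintro z a ha ⟨hrep, hσ, hσX, hlift, hn, hne⟩
  have hsmX := h.surf.smul
  have hsmK := h.opn.smul
  have hsm : ∀ x ∈ X, ∀ c : ℂ, c ≠ 0 → u (c • x) - u x ∈ Λ := h.tor.smul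
  obtain ⟨G, hGdef⟩ : ∃ G : ℂ → V, G = fun ζ => a • H ζ := ⟨_, rfl⟩
  have hGz : a • H z = G z := by rw [hGdef]
  rw [hGz] at hrep hσ hσX hlift hn hne
  rw [← hGdef]
  have hHan : ∀ ζ, AnalyticAt ℂ H ζ := fun ζ => hH.analyticAt ζ
  have hGan : ∀ ζ, AnalyticAt ℂ G ζ := fun ζ => by
    rw [hGdef]
    exact (hHan ζ).const_smul (c := a)
  have hGK : ∀ ζ, G ζ ∈ K := fun ζ => by
    rw [hGdef]
    exact hsmK _ (hHK ζ).1 a ha
  have hGX : ∀ ζ, G ζ ∈ X := fun ζ => h.opn.sub (hGK ζ)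
  have hGu : ∀ ζ, u (G ζ) - c ∈ Λ := fun ζ => by
    have h1 := hsm _ (h.opn.sub (hHK ζ).1) a ha
    have h2 := Λ.add_mem h1 (hHK ζ).2
    rw [hGdef]
    have h3 : u (a • H ζ) - u (H ζ) + (u (H ζ) - c) = u (a • H ζ) - c := by ring
    rwa [h3] at h2
  -- a curve in `X` near `G z`, in the chart
  have hcur : ∀ (γ : ℂ → V) (z₀ : ℂ) (κ : ℂ → ℂ), AnalyticAt ℂ γ z₀ → γ z₀ = G z → (∀ᶠ ζ in 𝓝 z₀, γ ζ ∈ X) → ContinuousAt κ z₀ → κ z₀ = 0 →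
      (∀ᶠ ζ in 𝓝 z₀, u (γ ζ) - (c + κ ζ) ∈ Λ) → (τ (G z)).1 = 0 →
      ∀ᶠ ζ in 𝓝 z₀, (τ (γ ζ)).1 = κ ζ := by
    intro γ z₀ κ hγ hγ0 hγX hκ hκ0 hγu h0
    obtain ⟨hτγ, B, hB, hBev⟩ := hrep γ z₀ hγ hγ0 hγX
    have ht : Tendsto (fun ζ => τ (γ ζ)) (𝓝 z₀) (𝓝 (τ (G z))) := by
      have := hτγ.continuousAt.tendsto
      rwa [hγ0] at this
    have h1 : ContinuousAt (fun ζ => (τ (γ ζ)).1 - κ ζ) z₀ :=
      (continuous_fst.continuousAt.comp (f := fun ζ => τ (γ ζ)) hτγ.continuousAt).sub hκ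
    have h2 : ∀ᶠ ζ in 𝓝 z₀, (τ (γ ζ)).1 - κ ζ ∈ Λ := by
      filter_upwards [hBev, hγu, ht.eventually hσX, ht.eventually hlift] with ζ g1 g2 g3 g4
      have g5 := hsm _ g3 (B ζ) g1.1
      rw [← g1.2] at g5
      have g6 := Λ.sub_mem (Λ.sub_mem g2 g5) g4
      have g7 : u (γ ζ) - (c + κ ζ) - (u (γ ζ) - u (σ (τ (γ ζ)))) - (u (σ (τ (γ ζ))) - (c + (τ (γ ζ)).1)) = (τ (γ ζ)).1 - κ ζ := by ring
      rwa [g7] at g6
    filter_upwards [VFun_lat hΛ h1 (by simp only [hγ0, h0, hκ0, sub_zero]) h2] with ζ hζ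
    exact sub_eq_zero.1 hζ
  obtain ⟨hτG, B, hB, hBev⟩ := hrep G z (hGan z) rfl (Eventually.of_forall hGX)
  have htG : Tendsto (fun ζ => τ (G ζ)) (𝓝 z) (𝓝 (τ (G z))) := hτG.continuousAt.tendsto
  have hp0 : (τ (G z)).1 = 0 := by
    apply hd _ _ hn
    have g1 := hBev.self_of_nhds
    have g5 := hsm _ hσX.self_of_nhds (B z) g1.1
    rw [← g1.2] at g5
    have g6 := Λ.sub_mem (Λ.sub_mem (hGu z) g5) hlift.self_of_nhds
    have g7 : u (G z) - c - (u (G z) - u (σ (τ (G z)))) - (u (σ (τ (G z))) - (c + (τ (G z)).1)) = (τ (G z)).1 := by ring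
    rwa [g7] at g6
  have hfst : ∀ᶠ ζ in 𝓝 z, (τ (G ζ)).1 = 0 :=
    hcur G z (fun _ => 0) (hGan z) rfl (Eventually.of_forall hGX) continuousAt_const rfl
      (Eventually.of_forall fun ζ => by rw [add_zero]; exact hGu ζ) hp0
  have hPt : ∀ᶠ ζ in 𝓝 z, τ (G ζ) = (0, tco τ G ζ) := by
    filter_upwards [hfst] with ζ hζ
    exact Prod.ext hζ rfl
  have hP : τ (G z) = (0, tco τ G z) := hPt.self_of_nhds
  have htan : AnalyticAt ℂ (tco τ G) z := by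
    have : AnalyticAt ℂ (fun ζ => (τ (G ζ)).2) z := AnalyticAt.fun_comp (g := Prod.snd) (f := fun ζ => τ (G ζ)) analyticAt_snd hτG
    exact this
  have hB0 : B z ≠ 0 := hBev.self_of_nhds.1
  have hA0 : a⁻¹ * B z ≠ 0 := mul_ne_zero (inv_ne_zero ha) hB0
  have hGz2 : G z = B z • σ (τ (G z)) := hBev.self_of_nhds.2
  have hHz : H z = (a⁻¹ * B z) • σ (τ (G z)) := by
    rw [mul_smul, ← hGz2, hGdef]
    show H z = a⁻¹ • (a • H z)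
    rw [smul_smul, inv_mul_cancel₀ ha, one_smul]
  have hσK0 : σ (τ (G z)) ∈ K := by
    have h1 := hsmK _ (hGK z) (B z)⁻¹ (inv_ne_zero hB0)
    rw [hGz2, smul_smul, inv_mul_cancel₀ hB0, one_smul] at h1
    exact h1
  have hσK : ∀ᶠ q in 𝓝 (τ (G z)), σ q ∈ K := by
    filter_upwards [hσ.continuousAt.tendsto.eventually (h.opn.rel _ hσK0), hσX] with q g1 g2
    exact g1 g2
  refine ⟨?_, ?_, ?_⟩
  · refine ⟨deriv (fun ζ : ℂ => (a⁻¹ * B z) • σ (ζ, tco τ G z)) 0, fun ζ => (a⁻¹ * B z) • σ (ζ, tco τ G z), ?_, ?_, ?_, rfl, ?_⟩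
    · have h1 : AnalyticAt ℂ (fun ζ : ℂ => (ζ, tco τ G z)) 0 := analyticAt_id.prod analyticAt_const
      have h2 : AnalyticAt ℂ σ ((fun ζ : ℂ => (ζ, tco τ G z)) 0) := by
        show AnalyticAt ℂ σ (0, tco τ G z)
        rw [← hP]
        exact hσ
      exact (AnalyticAt.fun_comp (g := σ) (f := fun ζ : ℂ => (ζ, tco τ G z)) h2 h1).const_smul (c := a⁻¹ * B z)
    · have h1 : Tendsto (fun ζ : ℂ => (ζ, tco τ G z)) (𝓝 0) (𝓝 (τ (G z))) := by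
        rw [hP]
        exact Continuous.tendsto (by fun_prop) 0
      filter_upwards [h1.eventually hσK] with ζ hζ
      exact hsmK _ hζ _ hA0
    · show (a⁻¹ * B z) • σ (0, tco τ G z) = H z
      rw [hHz, hP]
    · have h1 : Tendsto (fun ζ : ℂ => (ζ, tco τ G z)) (𝓝 0) (𝓝 (τ (G z))) := by
        rw [hP]
        exact Continuous.tendsto (by fun_prop) 0
      filter_upwards [h1.eventually hlift, h1.eventually hσX] with ζ g1 g2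
      have g3 := hsm _ g2 _ hA0
      have g4 := Λ.sub_mem (Λ.add_mem g3 g1) (hHK z).2
      have g5 : u ((a⁻¹ * B z) • σ (ζ, tco τ G z)) - u (σ (ζ, tco τ G z)) + (u (σ (ζ, tco τ G z)) - (c + ζ)) - (u (H z) - c) =
          u ((a⁻¹ * B z) • σ (ζ, tco τ G z)) - u (H z) - ζ := by ring
      rwa [g5] at g4
  · rintro w ⟨γ, hγ, hγK, hγ0, hγw, hγu⟩
    -- the curve `γ` in the chart
    have hγ' : AnalyticAt ℂ (fun ζ => a • γ ζ) 0 := hγ.const_smul (c := a)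
    have hγ0' : (fun ζ => a • γ ζ) 0 = G z := by
      show a • γ 0 = G z
      rw [hγ0, hGdef]
    have hγX' : ∀ᶠ ζ in 𝓝 (0 : ℂ), a • γ ζ ∈ X := by
      filter_upwards [hγK] with ζ hζ
      exact hsmX _ (h.opn.sub hζ) a ha
    have hγu' : ∀ᶠ ζ in 𝓝 (0 : ℂ), u (a • γ ζ) - (c + ζ) ∈ Λ := by
      filter_upwards [hγK, hγu] with ζ g1 g2
      have g3 := hsm _ (h.opn.sub g1) a ha
      have g4 := Λ.add_mem (Λ.add_mem g3 g2) (hHK z).2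
      have g5 : u (a • γ ζ) - u (γ ζ) + (u (γ ζ) - u (H z) - ζ) + (u (H z) - c) = u (a • γ ζ) - (c + ζ) := by ring
      rwa [g5] at g4
    obtain ⟨hτγ, B₁, hB₁, hB₁ev⟩ := hrep (fun ζ => a • γ ζ) 0 hγ' hγ0' hγX'
    have h1 := hcur (fun ζ => a • γ ζ) 0 (fun ζ => ζ) hγ' hγ0' hγX' continuousAt_id rfl hγu' hp0
    have hp1 : τ (a • γ 0) = τ (G z) := by
      rw [← hγ0']
    -- derivative of `γ`
    have h2 : deriv (fun ζ => τ (a • γ ζ)) 0 = (1, (deriv (fun ζ => τ (a • γ ζ)) 0).2) := by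
      refine Prod.ext ?_ rfl
      have h3 : HasDerivAt (fun ζ => (τ (a • γ ζ)).1) ((deriv (fun ζ => τ (a • γ ζ)) 0).1) 0 :=
        (ContinuousLinearMap.fst ℂ ℂ ℂ).hasFDerivAt.comp_hasDerivAt (0 : ℂ) hτγ.differentiableAt.hasDerivAt
      have h4 : (fun ζ => (τ (a • γ ζ)).1) =ᶠ[𝓝 0] fun ζ => ζ := h1
      have h5 := h4.deriv_eq
      rw [h3.deriv, deriv_id''] at h5
      exact h5
    have h3 : ∀ᶠ ζ in 𝓝 (0 : ℂ), γ ζ = (a⁻¹ * B₁ ζ) • σ (τ (a • γ ζ)) := by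
      filter_upwards [hB₁ev] with ζ hζ
      rw [mul_smul, ← hζ.2, smul_smul, inv_mul_cancel₀ ha, one_smul]
    have hσ1 : AnalyticAt ℂ σ (τ (a • γ 0)) := by
      rw [hp1]
      exact hσ
    have h4 := VFun_deriv (γ := γ) (B := fun ζ => a⁻¹ * B₁ ζ) (σ := σ) (P := fun ζ => τ (a • γ ζ)) (z₀ := 0) (analyticAt_const.mul hB₁) hτγ hσ1 h3
    rw [h2] at h4
    simp only [hp1] at h4
    have hBB : B₁ 0 = B z := by
      have e1 := hB₁ev.self_of_nhds.2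
      simp only [hp1] at e1
      have e2 : a • γ 0 = G z := hγ0'
      rw [e2] at e1
      have e3 : (B₁ 0 - B z) • σ (τ (G z)) = 0 := by
        rw [sub_smul, ← hGz2]
        rw [sub_eq_zero]
        exact e1.symm
      rcases smul_eq_zero.1 e3 with h5 | h5
      · exact sub_eq_zero.1 h5
      · exact absurd h5 hne
    rw [hBB, hγw] at h4
    -- derivative of `H`
    have h5 : ∀ᶠ ζ in 𝓝 z, H ζ = (a⁻¹ * B ζ) • σ (τ (G ζ)) := by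
      filter_upwards [hBev] with ζ hζ
      rw [mul_smul, ← hζ.2, hGdef]
      show H ζ = a⁻¹ • (a • H ζ)
      rw [smul_smul, inv_mul_cancel₀ ha, one_smul]
    have h6 := VFun_deriv (γ := H) (B := fun ζ => a⁻¹ * B ζ) (σ := σ) (P := fun ζ => τ (G ζ)) (z₀ := z) (analyticAt_const.mul hB) hτG hσ h5
    have h7 : deriv (fun ζ => τ (G ζ)) z = (0, deriv (tco τ G) z) := by
      have e1 : (fun ζ => τ (G ζ)) =ᶠ[𝓝 z] fun ζ => ((0 : ℂ), tco τ G ζ) := hPt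
      rw [e1.deriv_eq]
      exact ((hasDerivAt_const z (0 : ℂ)).prodMk htan.differentiableAt.hasDerivAt).deriv
    rw [h7] at h6
    simp only at h4 h6
    rw [h4, h6, hHz]
    have h8 := VFun_form (Ω := Ω) h.form hσ hσK hsmK hA0 ((deriv (fun ζ => τ (a • γ ζ)) 0).2) (deriv (fun ζ => a⁻¹ * B₁ ζ) 0)
      (deriv (fun ζ => a⁻¹ * B ζ) z) (deriv (tco τ G) z)
    rw [h8]
    unfold loc
    rw [hP]
  · have h1 : AnalyticAt ℂ (fun ζ => ((0 : ℂ), tco τ G ζ)) z := analyticAt_const.prod htan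
    have h2 : AnalyticAt ℂ (fun y => Ω (σ y) (fderiv ℂ σ y (1, 0)) (fderiv ℂ σ y (0, 1))) ((fun ζ => ((0 : ℂ), tco τ G ζ)) z) := by
      show AnalyticAt ℂ (fun y => Ω (σ y) (fderiv ℂ σ y (1, 0)) (fderiv ℂ σ y (0, 1))) (0, tco τ G z)
      rw [← hP]
      exact h.form.analytic σ _ hσ hσK
    have h3 : AnalyticAt ℂ σ ((fun ζ => ((0 : ℂ), tco τ G ζ)) z) := by
      show AnalyticAt ℂ σ (0, tco τ G z)
      rw [← hP]
      exact hσ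
    have h4 := AnalyticAt.fun_comp (g := fun y => Ω (σ y) (fderiv ℂ σ y (1, 0)) (fderiv ℂ σ y (0, 1))) (f := fun ζ => ((0 : ℂ), tco τ G ζ)) h2 h1
    have h5 := AnalyticAt.fun_comp (g := σ) (f := fun ζ => ((0 : ℂ), tco τ G ζ)) h3 h1
    have h6 : AnalyticAt ℂ (fun ζ => deriv (tco τ G) ζ) z := htan.deriv
    exact ((h6.fun_pow m).fun_mul h4).fun_smul h5

open Classical in
theorem exists_vfun (hΛ : Lat Λ) (h : VData X K Λ u m Ω q d) (hc : GoodC X K Λ u q c) {H : ℂ → V} (hH : Differentiable ℂ H)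
    (hHK : ∀ z, H z ∈ K ∧ u (H z) - c ∈ Λ) : ∃ Φ : ℂ → V, Differentiable ℂ Φ ∧ IsV X K Λ u m Ω c H Φ := by
  obtain ⟨Φ, hΦ⟩ : ∃ Φ : ℂ → V, ∀ z, (∃ w, VFun_U K Λ u (H z) w) → ∃ w, VFun_U K Λ u (H z) w ∧ Φ z = Ω (H z) w (deriv H z) • H z := by
    refine ⟨fun z => if hz : ∃ w, VFun_U K Λ u (H z) w then Ω (H z) hz.choose (deriv H z) • H z else 0, ?_⟩
    intro z hz
    exact ⟨hz.choose, hz.choose_spec, dif_pos hz⟩
  have key : ∀ (σ : ℂ × ℂ → V) (τ : V → ℂ × ℂ), SC X K Λ u c σ τ → ∃ O ∈ 𝓝 (σ 0), ∀ z a : ℂ, a ≠ 0 → a • H z ∈ O →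
      Φ z = loc m Ω σ τ (fun ζ => a • H ζ) z ∧ AnalyticAt ℂ (loc m Ω σ τ (fun ζ => a • H ζ)) z := by
    intro σ τ hs
    obtain ⟨O, hO, hO'⟩ := VFun_core hΛ h hs hH hHK
    refine ⟨O, hO, fun z a ha hz => ?_⟩
    obtain ⟨h1, h2, h3⟩ := hO' z a ha hz
    obtain ⟨w, hw, hw'⟩ := hΦ z h1
    exact ⟨hw'.trans (h2 w hw), h3⟩
  refine ⟨Φ, fun z => ?_, fun σ τ hs => ?_⟩
  · obtain ⟨σ, τ, hs, h0, -⟩ := hc (H z) (h.opn.sub (hHK z).1) (hHK z).2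
    obtain ⟨O, hO, hO'⟩ := key σ τ hs
    rw [h0] at hO
    have h1 : ∀ᶠ ζ in 𝓝 z, Φ ζ = loc m Ω σ τ (fun ζ => (1 : ℂ) • H ζ) ζ := by
      filter_upwards [(hH z).continuousAt.tendsto.eventually hO] with ζ hζ
      refine (hO' ζ 1 one_ne_zero ?_).1
      rw [one_smul]
      exact hζ
    have h2 := (hO' z 1 one_ne_zero (by rw [one_smul]; exact mem_of_mem_nhds hO)).2
    have h3 : loc m Ω σ τ (fun ζ => (1 : ℂ) • H ζ) =ᶠ[𝓝 z] Φ := by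
      filter_upwards [h1] with ζ hζ using hζ.symm
    exact (h2.congr h3).differentiableAt
  · obtain ⟨O, hO, hO'⟩ := key σ τ hs
    exact ⟨O, hO, fun z a ha hz => (hO' z a ha hz).1⟩

end Pool.Agent.H17V
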