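import Pool.Agent.H17V.VLim
import Pool.Agent.H17V.VFun
import Pool.Agent.H17V.VBd
import Pool.Agent.H17V.BadV

/-!
# H17V VEnd: the entire curves in the fibre over a good value are constant

Suppose `f` is not constant; `exists_bd` (with any `L : V ≃L[ℂ] EN M`) gives `H`, `exists_vfun` gives `Φ`, bounded by `vfun_bd`, so `Φ z = Φ₀` for all `z` (Liouville, `Differentiable.apply_eq_apply_of_bounded`).
`Φ₀ ≠ 0`: `Φ z` is a multiple of `σ (0, tco ..)` for the chart at `H z` (`a = 1`, `IsV`), which is a multiple of `H z` (`right`); so all `H z` are proportional to `Φ₀`: contradiction.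
`Φ₀ = 0`: there are a point `z₀` and a chart `σ, τ` (`GoodC` at `H z₀`, `σ 0 = H z₀`) with `t' (z₀) ≠ 0`, `t = tco τ H`: otherwise for every `z₀` the derivative of `t` vanishes at `z₀` for the chart at `H z₀`; as the charts at nearby points are related by a biholomorphic map (see VFun) `t' = 0` near `z₀` for the chart at `z₀`, so `H` is locally constant in the projective space, so constant (private `ver_ident` in
EG/HyVer.lean): contradiction.  (Alternatively: `H' (z₀)` is not proportional to `H (z₀)` for some `z₀`, see the private `ver_wd` there, and `H ζ = A ζ • σ (0, t ζ)`.)  For `ζ` near `z₀`: `0 = Φ ζ = loc m Ω σ τ H ζ`, `t' (ζ) ≠ 0`, so `Ω (σ (0, t ζ); ∂_s σ, ∂_t σ) = 0`; `σ (0, t ζ) ∈ K` (a multiple of `H ζ`), the vectors `σ, ∂_s σ, ∂_t σ` are linearly independent (chart; `IsChart.indep` in H62/BU/Ch.lean, at the point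
`(0, t ζ)` by `IsChart.near`), tangent vectors of `K`, so by `noZeros` `q (σ (0, t ζ)) = 0` for `ζ` near `z₀`.  `t` is open near `z₀`, `t z₀ = 0`: `q (σ (0, t)) = 0` for `t` near `0`: contradiction to `GoodC`.
-/

set_option autoImplicit false

open Topology Filter

namespace Pool.Agent.H17V

open Pool.Agent.H17BP (Surface IsChart IsForm NoZeros Pr HolP)
open Pool.Agent.H17N (TMap)
open Pool.Agent.H36.BPL (OpenPart PoleLE)
open Pool.Agent.H36.BP (EN fs wd)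
open Pool.Agent.H62.EF (Lat)

variable {V : Type} [NormedAddCommGroup V] [NormedSpace ℂ V] [FiniteDimensional ℂ V] {X K : Set V} {Λ : AddSubgroup ℂ} {u : V → ℂ} {m d : ℕ}
  {Ω : V → V → V → ℂ} {q : V → ℂ} {c : ℂ}

/-- an entire curve which is locally constant in the projective space is constant -/
private theorem ve_ident {H : ℂ → V} (hH : Differentiable ℂ H) (h0 : ∀ z, H z ≠ 0) {ζ₀ : ℂ}
    (h : ∀ᶠ z in 𝓝 ζ₀, ∃ a : ℂ, H z = a • H ζ₀) (z : ℂ) : Pr (H z) (H ζ₀) := by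
  have : CompleteSpace V := FiniteDimensional.complete ℂ V
  obtain ⟨φ, hφ⟩ := exists_dual_vector ℂ (H ζ₀) (norm_ne_zero_iff.mpr (h0 ζ₀))
  have hφ0 : φ (H ζ₀) ≠ 0 := by
    rw [hφ.2]
    simpa using h0 ζ₀
  have hd : Differentiable ℂ (fun z => φ (H ζ₀) • H z - φ (H z) • H ζ₀) :=
    (hH.const_smul (φ (H ζ₀))).sub ((φ.differentiable.comp hH).smul_const (H ζ₀))
  have han : AnalyticOnNhd ℂ (fun z => φ (H ζ₀) • H z - φ (H z) • H ζ₀) Set.univ := fun z _ => hd.analyticAt z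
  have hev : (fun z => φ (H ζ₀) • H z - φ (H z) • H ζ₀) =ᶠ[𝓝 ζ₀] 0 := by
    filter_upwards [h] with z hz
    obtain ⟨a, ha⟩ := hz
    simp only [Pi.zero_apply]
    rw [ha, map_smul, smul_eq_mul, smul_smul, mul_comm, sub_self]
  have h1 : φ (H ζ₀) • H z - φ (H z) • H ζ₀ = 0 :=
    han.eqOn_zero_of_preconnected_of_eventuallyEq_zero isPreconnected_univ (Set.mem_univ ζ₀) hev (Set.mem_univ z)
  have h2 : H z = ((φ (H ζ₀))⁻¹ * φ (H z)) • H ζ₀ := by
    rw [mul_smul, ← sub_eq_zero.mp h1, smul_smul, inv_mul_cancel₀ hφ0, one_smul]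
  refine ⟨(φ (H ζ₀))⁻¹ * φ (H z), ?_, h2⟩
  intro h3
  apply h0 z
  rw [h2, h3, zero_smul]

omit [FiniteDimensional ℂ V] in
/-- the tangent vectors of a chart are independent -/
private theorem ve_indep0 {σ : ℂ × ℂ → V} {τ : V → ℂ × ℂ} (h : IsChart X σ τ) :
    LinearIndependent ℂ ![σ 0, fderiv ℂ σ 0 (1, 0), fderiv ℂ σ 0 (0, 1)] := by
  have h1 : HasFDerivAt σ (fderiv ℂ σ 0) 0 := h.σ_an.differentiableAt.hasFDerivAt
  have h2 : HasFDerivAt τ (fderiv ℂ τ (σ 0)) (σ 0) := h.τ_an.differentiableAt.hasFDerivAt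
  have hleft : ∀ w, fderiv ℂ τ (σ 0) (fderiv ℂ σ 0 w) = w := by
    intro w
    have h3 := h2.comp (0 : ℂ × ℂ) h1
    have h4 : HasFDerivAt (τ ∘ σ) (ContinuousLinearMap.id ℂ (ℂ × ℂ)) 0 := by
      refine (hasFDerivAt_id (0 : ℂ × ℂ)).congr_of_eventuallyEq ?_
      filter_upwards [h.left] with p hp
      exact hp
    have h6 := congrArg (fun L : (ℂ × ℂ) →L[ℂ] (ℂ × ℂ) => L w) (h3.unique h4)
    simpa using h6
  have hself : fderiv ℂ τ (σ 0) (σ 0) = 0 := by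
    have h1 : HasDerivAt (fun c : ℂ => c • σ 0) (σ 0) 1 := by
      have := (hasDerivAt_id (1 : ℂ)).smul_const (σ 0)
      simpa using this
    have h2 : HasFDerivAt τ (fderiv ℂ τ (σ 0)) ((1 : ℂ) • σ 0) := by
      rw [one_smul]; exact h.τ_an.differentiableAt.hasFDerivAt
    have h3 := h2.comp_hasDerivAt (1 : ℂ) h1
    have h4 : HasDerivAt (τ ∘ fun c : ℂ => c • σ 0) 0 1 := by
      refine (hasDerivAt_const (1 : ℂ) (τ (σ 0))).congr_of_eventuallyEq ?_
      have h5 : Tendsto (fun c : ℂ => (σ 0, c)) (𝓝 1) (𝓝 (σ 0, (1 : ℂ))) := by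
        rw [nhds_prod_eq]
        exact tendsto_const_nhds.prodMk tendsto_id
      filter_upwards [h5.eventually h.inv] with c hc
      exact hc
    exact h3.unique h4
  rw [Fintype.linearIndependent_iff]
  intro g hg
  rw [Fin.sum_univ_three] at hg
  simp only [Matrix.cons_val_zero, Matrix.cons_val_one, Matrix.cons_val] at hg
  have h5 : fderiv ℂ σ 0 (g 1, g 2) = g 1 • fderiv ℂ σ 0 (1, 0) + g 2 • fderiv ℂ σ 0 (0, 1) := by
    rw [← map_smul, ← map_smul, ← map_add]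
    congr 1
    ext <;> simp
  have h6 : fderiv ℂ τ (σ 0) (g 0 • σ 0 + fderiv ℂ σ 0 (g 1, g 2)) = 0 := by
    rw [h5, ← add_assoc, hg, map_zero]
  rw [map_add, map_smul, hself, smul_zero, zero_add, hleft] at h6
  have h7 : g 1 = 0 := congrArg Prod.fst h6
  have h8 : g 2 = 0 := congrArg Prod.snd h6
  rw [h7, h8, zero_smul, zero_smul, add_zero, add_zero] at hg
  have h9 : g 0 = 0 := (smul_eq_zero.mp hg).resolve_right h.ne
  intro i
  fin_cases i
  · exact h9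
  · exact h7
  · exact h8

private theorem ve_indep {σ : ℂ × ℂ → V} {τ : V → ℂ × ℂ} (h : IsChart X σ τ) :
    ∀ᶠ p in 𝓝 (0 : ℂ × ℂ), LinearIndependent ℂ ![σ p, fderiv ℂ σ p (1, 0), fderiv ℂ σ p (0, 1)] := by
  filter_upwards [h.near] with p hp
  have h1 := ve_indep0 hp
  have h2 : fderiv ℂ (fun x => σ (p + x)) 0 = fderiv ℂ σ p := by
    rw [fderiv_comp_add_left, add_zero]
  rw [h2] at h1
  simpa only [add_zero] using h1

omit [FiniteDimensional ℂ V] in
/-- the tangent vectors of a chart at a point of `K` are tangent vectors of `K` -/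
private theorem ve_tan (hK : OpenPart X K) {σ : ℂ × ℂ → V} {p : ℂ × ℂ} (hσ : AnalyticAt ℂ σ p) (hX : ∀ᶠ y in 𝓝 p, σ y ∈ X) (hp : σ p ∈ K)
    (w : ℂ × ℂ) : fderiv ℂ σ p w ∈ Pool.Agent.H17BP.Tan K (σ p) := by
  have h1 : Tendsto (fun z : ℂ => p + z • w) (𝓝 0) (𝓝 p) := by
    have h2 : Continuous fun z : ℂ => p + z • w := by fun_prop
    simpa using h2.tendsto 0
  have h3 : Tendsto (fun z : ℂ => σ (p + z • w)) (𝓝 0) (𝓝 (σ p)) := hσ.continuousAt.tendsto.comp h1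
  have h4 : HasDerivAt (fun z : ℂ => p + z • w) w 0 := by
    have := ((hasDerivAt_id (0 : ℂ)).smul_const w).const_add p
    simpa using this
  refine ⟨fun z => σ (p + z • w), ?_, ?_, ?_, ?_⟩
  · refine AnalyticAt.comp (g := σ) (f := fun z : ℂ => p + z • w) ?_ ?_
    · simpa using hσ
    · exact analyticAt_const.add (analyticAt_id.smul analyticAt_const)
  · filter_upwards [h1.eventually hX, h3.eventually (hK.rel _ hp)] with z h5 h6
    exact h6 h5
  · simp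
  · have h5 : HasFDerivAt σ (fderiv ℂ σ p) (p + (0 : ℂ) • w) := by
      rw [zero_smul, add_zero]
      exact hσ.differentiableAt.hasFDerivAt
    exact (h5.comp_hasDerivAt (0 : ℂ) h4).deriv

/-- the case `Φ = 0`, near a point -/
private theorem ve_zero (hΛ : Lat Λ) (h : VData X K Λ u m Ω q d) {H Φ : ℂ → V} (hH : Differentiable ℂ H)
    (hHK : ∀ z, H z ∈ K ∧ u (H z) - c ∈ Λ) (hΦ : IsV X K Λ u m Ω c H Φ) (hΦ0 : ∀ z, Φ z = 0) {z₀ : ℂ} {σ : ℂ × ℂ → V} {τ : V → ℂ × ℂ}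
    (hs : SC X K Λ u c σ τ) (h0 : σ 0 = H z₀) (hq : ¬ ∀ᶠ t in 𝓝 (0 : ℂ), q (σ (0, t)) = 0) : ∀ᶠ z in 𝓝 z₀, ∃ a : ℂ, H z = a • H z₀ := by
  have : CompleteSpace V := FiniteDimensional.complete ℂ V
  have hX0 : ∀ x ∈ X, x ≠ 0 := fun x hx hx0 => h.surf.zero (hx0 ▸ hx)
  have hHX : ∀ z, H z ∈ X := fun z => h.opn.sub (hHK z).1
  have hHt : Tendsto H (𝓝 z₀) (𝓝 (σ 0)) := by
    rw [h0]
    exact hH.continuous.tendsto z₀
  have hτ0 : τ (σ 0) = 0 := hs.chart.left.self_of_nhds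
  have hτH : Tendsto (fun z => τ (H z)) (𝓝 z₀) (𝓝 0) := by
    have h1 : Tendsto τ (𝓝 (σ 0)) (𝓝 0) := by
      have := hs.chart.τ_an.continuousAt.tendsto
      rwa [hτ0] at this
    exact h1.comp hHt
  -- the first coordinate is `0`
  obtain ⟨δ, hδ, hδΛ⟩ := hΛ.discrete
  have hfst : ∀ᶠ z in 𝓝 z₀, (τ (H z)).1 = 0 := by
    have h1 : Tendsto (fun z => (τ (H z)).1) (𝓝 z₀) (𝓝 0) := (continuous_fst.tendsto (0 : ℂ × ℂ)).comp hτH
    have h2 : ∀ᶠ z in 𝓝 z₀, ‖(τ (H z)).1‖ < δ := by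
      have h3 := h1.norm
      rw [norm_zero] at h3
      exact h3.eventually (gt_mem_nhds hδ)
    filter_upwards [h2, hHt.eventually hs.chart.right, hτH.eventually hs.lift, hτH.eventually hs.chart.σ_mem] with z g1 g2 g3 g4
    obtain ⟨a, ha, g5⟩ := g2 (hHX z)
    have g6 := h.tor.smul _ g4 a ha
    rw [← g5] at g6
    have g7 := (hHK z).2
    apply hδΛ _ _ g1
    have g8 : (τ (H z)).1 = u (H z) - c - (u (H z) - u (σ (τ (H z)))) - (u (σ (τ (H z))) - (c + (τ (H z)).1)) := by ring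
    rw [g8]
    exact Λ.sub_mem (Λ.sub_mem g7 g6) g3
  -- the second coordinate
  set t : ℂ → ℂ := tco τ H with ht
  have hpair : ∀ᶠ z in 𝓝 z₀, τ (H z) = (0, t z) := by
    filter_upwards [hfst] with z hz
    exact Prod.ext hz rfl
  have htan : AnalyticAt ℂ t z₀ := by
    have h1 : AnalyticAt ℂ (fun z => τ (H z)) z₀ := by
      refine AnalyticAt.comp (g := τ) (f := H) ?_ (hH.analyticAt z₀)
      rw [← h0]
      exact hs.chart.τ_an
    exact analyticAt_snd.comp h1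
  have ht0 : t z₀ = 0 := by
    show (τ (H z₀)).2 = 0
    rw [← h0, hτ0]
    rfl
  have hHσ : ∀ᶠ z in 𝓝 z₀, ∃ a : ℂ, a ≠ 0 ∧ H z = a • σ (0, t z) := by
    filter_upwards [hHt.eventually hs.chart.right, hpair] with z g1 g2
    obtain ⟨a, ha, g3⟩ := g1 (hHX z)
    rw [g2] at g3
    exact ⟨a, ha, g3⟩
  rcases htan.eventually_constant_or_nhds_le_map_nhds with hconst | hopen
  · filter_upwards [hHσ, hconst] with z g1 g2
    obtain ⟨a, -, g3⟩ := g1
    refine ⟨a, ?_⟩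
    rw [g3, g2, ht0, ← h0]
    rfl
  exfalso
  apply hq
  have htt : Tendsto (fun z => ((0 : ℂ), t z)) (𝓝 z₀) (𝓝 (0 : ℂ × ℂ)) := by
    have h1 : Tendsto t (𝓝 z₀) (𝓝 0) := by
      have := htan.continuousAt.tendsto
      rwa [ht0] at this
    exact (tendsto_const_nhds (x := (0 : ℂ))).prodMk_nhds h1
  have hqa : ContinuousAt (fun z => q (σ (0, t z))) z₀ := by
    have h1 : Tendsto (fun z => σ (0, t z)) (𝓝 z₀) (𝓝 (σ 0)) := hs.chart.σ_an.continuousAt.tendsto.comp htt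
    have h2 : σ (0, t z₀) = σ 0 := by rw [ht0]; rfl
    have h3 : Tendsto (fun z => q (σ (0, t z))) (𝓝 z₀) (𝓝 (q (σ 0))) := (h.an (σ 0)).continuousAt.tendsto.comp h1
    rw [← h2] at h3
    exact h3
  -- the derivative is not zero near `z₀`
  have hder : ∀ᶠ z in 𝓝[≠] z₀, deriv t z ≠ 0 := by
    rcases htan.deriv.eventually_eq_zero_or_eventually_ne_zero with g1 | g1
    · exfalso
      -- `t` is constant near `z₀`
      obtain ⟨ε, hε, hb⟩ := Metric.eventually_nhds_iff_ball.mp (g1.and htan.eventually_analyticAt)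
      have g2 : ∀ z ∈ Metric.ball z₀ ε, t z = t z₀ := by
        intro z hz
        exact Metric.isOpen_ball.is_const_of_deriv_eq_zero (convex_ball z₀ ε).isPreconnected
          (fun z hz => (hb z hz).2.differentiableAt.differentiableWithinAt) (fun z hz => (hb z hz).1) hz (Metric.mem_ball_self hε)
      have g3 : ∀ᶠ s in 𝓝 (t z₀), s = t z₀ := by
        apply hopen
        rw [Filter.mem_map]
        filter_upwards [Metric.ball_mem_nhds z₀ hε] with z hz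
        exact g2 z hz
      have g4 : ∀ᶠ s in 𝓝[≠] (t z₀), s = t z₀ := g3.filter_mono nhdsWithin_le_nhds
      obtain ⟨s, hs1, hs2⟩ := (g4.and self_mem_nhdsWithin).exists
      exact hs2 hs1
    · exact g1
  obtain ⟨O, hO, hOΦ⟩ := hΦ σ τ hs
  have hq0 : ∀ᶠ z in 𝓝[≠] z₀, q (σ (0, t z)) = 0 := by
    have e1 : ∀ᶠ z in 𝓝 z₀, H z ∈ O ∧ σ (0, t z) ∈ X ∧ AnalyticAt ℂ σ (0, t z) ∧ (∀ᶠ y in 𝓝 ((0 : ℂ), t z), σ y ∈ X) ∧
        LinearIndependent ℂ ![σ (0, t z), fderiv ℂ σ (0, t z) (1, 0), fderiv ℂ σ (0, t z) (0, 1)] ∧ ∃ a : ℂ, a ≠ 0 ∧ H z = a • σ (0, t z) := by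
      filter_upwards [hHt.eventually hO, htt.eventually hs.chart.σ_mem, htt.eventually hs.chart.σ_an.eventually_analyticAt,
        htt.eventually hs.chart.σ_mem.eventually_nhds, htt.eventually (ve_indep hs.chart), hHσ] with z g1 g2 g3 g4 g5 g6
      exact ⟨g1, g2, g3, g4, g5, g6⟩
    filter_upwards [e1.filter_mono nhdsWithin_le_nhds, hder] with z g1 g2
    obtain ⟨g3, g4, g5, g6, g7, a, ha, g8⟩ := g1
    have e2 := hOΦ z 1 one_ne_zero (by rwa [one_smul])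
    simp only [one_smul] at e2
    rw [hΦ0 z] at e2
    have e3 : (deriv t z) ^ m * Ω (σ (0, t z)) (fderiv ℂ σ (0, t z) (1, 0)) (fderiv ℂ σ (0, t z) (0, 1)) = 0 :=
      (smul_eq_zero.mp e2.symm).resolve_right (hX0 _ g4)
    have e4 : Ω (σ (0, t z)) (fderiv ℂ σ (0, t z) (1, 0)) (fderiv ℂ σ (0, t z) (0, 1)) = 0 :=
      (mul_eq_zero.mp e3).resolve_left (pow_ne_zero _ g2)
    have e5 : σ (0, t z) ∈ K := by
      have e6 : σ (0, t z) = a⁻¹ • H z := by rw [g8, smul_smul, inv_mul_cancel₀ ha, one_smul]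
      rw [e6]
      exact h.opn.smul _ (hHK z).1 _ (inv_ne_zero ha)
    by_contra e6
    exact h.noZeros _ e5 (fun e7 => e6 e7.2) _ (ve_tan h.opn g5 g6 e5 (1, 0)) _ (ve_tan h.opn g5 g6 e5 (0, 1)) g7 e4
  have hq1 : ∀ᶠ z in 𝓝 z₀, q (σ (0, t z)) = 0 := by
    have e1 : q (σ (0, t z₀)) = 0 := by
      have e2 : Tendsto (fun z => q (σ (0, t z))) (𝓝[≠] z₀) (𝓝 (q (σ (0, t z₀)))) := hqa.tendsto.mono_left nhdsWithin_le_nhds
      have e3 : Tendsto (fun z => q (σ (0, t z))) (𝓝[≠] z₀) (𝓝 0) :=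
        tendsto_const_nhds.congr' (hq0.mono fun z hz => hz.symm)
      exact tendsto_nhds_unique e2 e3
    rw [eventually_nhdsWithin_iff] at hq0
    filter_upwards [hq0] with z hz
    by_cases hzz : z = z₀
    · rw [hzz]
      exact e1
    · exact hz hzz
  have hfin : ∀ᶠ s in 𝓝 (t z₀), q (σ (0, s)) = 0 := by
    apply hopen
    rw [Filter.mem_map]
    exact hq1
  rwa [ht0] at hfin

theorem vert_const (hΛ : Lat Λ) (h : VData X K Λ u m Ω q d) (hc : GoodC X K Λ u q c) {f : ℂ → V} (hf : ∀ z, HolP f z)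
    (hfK : ∀ z, f z ∈ K) (hfu : ∀ z, u (f z) - c ∈ Λ) (z w : ℂ) : Pr (f z) (f w) := by
  by_contra hzw
  have hX0 : ∀ x ∈ X, x ≠ 0 := fun x hx hx0 => h.surf.zero (hx0 ▸ hx)
  have : Nontrivial V := ⟨⟨f 0, 0, hX0 _ (h.opn.sub (hfK 0))⟩⟩
  obtain ⟨M, hM⟩ : ∃ M : ℕ, Module.finrank ℂ V = M + 1 := Nat.exists_eq_succ_of_ne_zero Module.finrank_pos.ne'
  let L : V ≃L[ℂ] EN M := ContinuousLinearEquiv.ofFinrankEq (by rw [hM, finrank_euclideanSpace_fin])
  obtain ⟨H, hH, hHK, ⟨z₁, z₂, hne⟩, C, hC⟩ := exists_bd L hΛ h hc hf hfK hfu ⟨z, w, hzw⟩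
  obtain ⟨Φ, hΦd, hΦ⟩ := exists_vfun hΛ h hc hH hHK
  obtain ⟨C', hC'⟩ := vfun_bd L hΛ h hc hH hHK hC hΦ
  have hHX : ∀ z, H z ∈ X := fun z => h.opn.sub (hHK z).1
  have hH0 : ∀ z, H z ≠ 0 := fun z => hX0 _ (hHX z)
  have hbd : Bornology.IsBounded (Set.range Φ) := by
    rw [isBounded_iff_forall_norm_le]
    refine ⟨C', ?_⟩
    rintro _ ⟨z, rfl⟩
    exact hC' z
  have hconst : ∀ z w, Φ z = Φ w := fun z w => hΦd.apply_eq_apply_of_bounded hbd z w
  by_cases h0 : Φ 0 = 0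
  · -- the case `Φ = 0`
    obtain ⟨σ, τ, hs, hσ0, hq⟩ := hc (H z₂) (hHX z₂) (hHK z₂).2
    have h1 := ve_zero hΛ h hH hHK hΦ (fun z => (hconst z 0).trans h0) hs hσ0 hq
    exact hne (ve_ident hH hH0 h1 z₁)
  · -- the case `Φ ≠ 0`
    have h1 : ∀ z, Pr (Φ 0) (H z) := by
      intro z
      obtain ⟨σ, τ, hs, hσ0, -⟩ := hc (H z) (hHX z) (hHK z).2
      obtain ⟨O, hO, hOΦ⟩ := hΦ σ τ hs
      have e1 := hOΦ z 1 one_ne_zero (by
        rw [one_smul, ← hσ0]
        exact mem_of_mem_nhds hO)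
      simp only [one_smul] at e1
      have e2 : tco τ H z = 0 := by
        show (τ (H z)).2 = 0
        rw [← hσ0, hs.chart.left.self_of_nhds]
        rfl
      unfold loc at e1
      rw [e2, hconst z 0] at e1
      have e3 : σ (0, 0) = H z := hσ0
      rw [e3] at e1
      refine ⟨_, ?_, e1⟩
      intro e4
      rw [e4, zero_smul] at e1
      exact h0 e1
    exact hne ((h1 z₁).symm.trans (h1 z₂))

end Pool.Agent.H17V
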