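import Pool.Agent.H17V.Defs
import Pool.Agent.H17N.BaseB
import Pool.Agent.EG.HyVer
import Pool.Agent.H36.LB.Hur

/-!
# H17V VLim: entire curves with bounded derivative in the fibre

Let `f` be a non-constant entire curve in `K` in the fibre over the good value `c`.  Its global lift (private `BaseB_lift` in H17N/BaseB.lean: copy) is `F : ℂ → EN M`, `G z = L.symm (F z)` proportional to `f z`.  If `fs (F z) (F' z)` is bounded take `H = G`.  Otherwise follow `vertical_const` in EG/HyVer.lean: `rescale_fs`, `limit_curves` (H62/EF/LimL.lean) for `X' = L.symm ⁻¹' X` (`IsCone`: `isCone_transport`):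
an entire `H' : ℂ → EN M` in `X'` with `fs (H' 0) (deriv H' 0) = 1`, `fs ≤ 2`, a limit of the rescaled curves `K n` (in `L.symm ⁻¹' K`, over `c`), `pr (K n z) → pr (H' z)` and locally uniformly for suitable multiples.  `H = L.symm ∘ H'`: `u (H z) - c ∈ Λ`: `EG.mem_fibre_of_tendsto` (or directly with `tor.loc`), it is not constant because `fs (H' 0) (deriv H' 0) ≠ 0` (if all values are proportional to `H' 0` then
the derivative is, `wd = 0`; `Brody_deriv_line`).  `H z ∈ K` for all `z`: suppose `H z₀ ∉ K`.  `hur_openPart` (H36/LB/Hur.lean), with the locally uniformly convergent multiples of the last clause of `limit_curves`, gives `H z ∉ K` for all `z` near `z₀`.  `GoodC` at `x = H z₀`: chart `σ, τ` with `σ 0 = x`, `u = c + s`, and (as `x ∉ K`) `σ p ∉ K ↔ p.2 = 0`.  For `z` near `z₀`: `H z = a • σ (τ (H z))`,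
`τ (H z) = (s, t)` with `c + s - c ∈ Λ`, `s` small, so `s = 0`, and `t = 0` because `H z ∉ K` (`opn.smul`).  So `H z` is proportional to `x` for `z` near `z₀`, hence for all `z` (private `ver_ident` in EG/HyVer.lean, applied to `L ∘ H`): contradiction.
-/

set_option autoImplicit false

open Topology Filter

namespace Pool.Agent.H17V

open Pool.Agent.H17BP (Surface IsChart IsForm NoZeros Pr HolP)
open Pool.Agent.H17N (TMap)
open Pool.Agent.H36.BPL (OpenPart PoleLE)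
open Pool.Agent.H36.BP (EN fs wd)
open Pool.Agent.H62.EF (Lat)

variable {V : Type} [NormedAddCommGroup V] [NormedSpace ℂ V] [FiniteDimensional ℂ V] {X K : Set V} {Λ : AddSubgroup ℂ} {u : V → ℂ} {m d M : ℕ}
  {Ω : V → V → V → ℂ} {q : V → ℂ} {c : ℂ}

/-- an entire curve which is locally constant in the projective space is constant -/
private theorem VLim_ident {N : ℕ} {G : ℂ → EN N} (hG : Differentiable ℂ G) (h0 : ∀ z, G z ≠ 0) {ζ₀ : ℂ}
    (h : ∀ᶠ z in 𝓝 ζ₀, ∃ c : ℂ, G z = c • G ζ₀) (z w : ℂ) : ∃ c : ℂ, G z = c • G w := by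
  have hcoord : ∀ i, Differentiable ℂ (fun z => G z i) := fun i => by
    exact (EuclideanSpace.proj (𝕜 := ℂ) i).differentiable.comp hG
  have hmin : ∀ i j : Fin (N + 1), ∀ z, G z i * G ζ₀ j - G z j * G ζ₀ i = 0 := by
    intro i j
    have hd : Differentiable ℂ (fun z => G z i * G ζ₀ j - G z j * G ζ₀ i) :=
      ((hcoord i).mul_const _).sub ((hcoord j).mul_const _)
    have han : AnalyticOnNhd ℂ (fun z => G z i * G ζ₀ j - G z j * G ζ₀ i) Set.univ := fun z _ => hd.analyticAt z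
    have hev : (fun z => G z i * G ζ₀ j - G z j * G ζ₀ i) =ᶠ[𝓝 ζ₀] 0 := by
      filter_upwards [h] with z hz
      obtain ⟨c, hc⟩ := hz
      rw [hc]
      simp only [PiLp.smul_apply, smul_eq_mul, Pi.zero_apply]
      ring
    have := han.eqOn_zero_of_preconnected_of_eventuallyEq_zero isPreconnected_univ (Set.mem_univ ζ₀) hev
    intro z
    exact this (Set.mem_univ z)
  obtain ⟨i, hi⟩ : ∃ i, G ζ₀ i ≠ 0 := by
    by_contra hcon
    push Not at hcon
    apply h0 ζ₀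
    ext i
    simpa using hcon i
  have hall : ∀ z, G z = (G z i / G ζ₀ i) • G ζ₀ := by
    intro z
    ext j
    have h1 := hmin i j z
    rw [PiLp.smul_apply, smul_eq_mul, div_mul_eq_mul_div, eq_div_iff hi]
    linear_combination -h1
  have hw : G w i / G ζ₀ i ≠ 0 := by
    intro hcon
    apply h0 w
    rw [hall w, hcon, zero_smul]
  have hwi : G ζ₀ = (G w i / G ζ₀ i)⁻¹ • G w := by
    have h1 := congrArg (fun x => (G w i / G ζ₀ i)⁻¹ • x) (hall w)
    simp only [smul_smul, inv_mul_cancel₀ hw, one_smul] at h1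
    exact h1.symm
  refine ⟨(G z i / G ζ₀ i) * (G w i / G ζ₀ i)⁻¹, ?_⟩
  rw [mul_smul, ← hwi]
  exact hall z

omit [FiniteDimensional ℂ V] in
/-- the global lift of a holomorphic map to the projective space -/
private theorem VLim_lift (L : V ≃L[ℂ] EN M) (hX : Surface X) {f : ℂ → V} (hf : ∀ z, HolP f z) (hfX : ∀ z, f z ∈ X) :
    ∃ F : ℂ → EN M, Differentiable ℂ F ∧ ∀ z, ∃ c : ℂ, c ≠ 0 ∧ F z = c • L (f z) := by
  have hf0 : ∀ z, f z ≠ 0 := fun z h0 => hX.zero (h0 ▸ hfX z)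
  have hne : ∀ z, (Pool.Agent.H17EF.LE M).symm (L (f z)) ≠ 0 := fun z h0 => hf0 z (by simpa using h0)
  have hhol : Pool.Agent.H17.HolomorphicInto (fun z => Projectivization.mk ℂ ((Pool.Agent.H17EF.LE M).symm (L (f z))) (hne z)) Set.univ := by
    intro z _
    obtain ⟨G, hG, hG0, hG1⟩ := hf z
    have h1 : AnalyticAt ℂ (fun w => L (G w)) z := ((L : V →L[ℂ] EN M).analyticAt _).comp hG
    refine ⟨fun w => (Pool.Agent.H17EF.LE M).symm (L (G w)), (((Pool.Agent.H17EF.LE M).symm : EN M →L[ℂ] (Fin (M + 1) → ℂ)).analyticAt _).comp h1, ?_⟩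
    filter_upwards [hG1, hG.continuousAt.eventually_ne hG0] with w hw hw0
    obtain ⟨c, hc, hw1⟩ := hw
    refine ⟨fun h0 => hw0 (by simpa using h0), ?_⟩
    rw [Projectivization.mk_eq_mk_iff']
    exact ⟨c, by rw [hw1, map_smul, map_smul]⟩
  obtain ⟨F, hF, hF1⟩ := Pool.Agent.H17EF.exists_lift hhol
  refine ⟨F, hF, fun z => ?_⟩
  obtain ⟨h0, h1⟩ := hF1 z
  rw [Projectivization.mk_eq_mk_iff'] at h1
  obtain ⟨a, ha⟩ := h1
  -- `a • (Pool.Agent.H17EF.LE M).symm (F z) = (Pool.Agent.H17EF.LE M).symm (L (f z))`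
  have h2 : a • F z = L (f z) := by
    have h3 := congrArg (fun y => (Pool.Agent.H17EF.LE M) y) ha
    simpa using h3
  have ha0 : a ≠ 0 := by
    rintro rfl
    rw [zero_smul] at h2
    exact hf0 z (by simpa using h2.symm)
  refine ⟨a⁻¹, inv_ne_zero ha0, ?_⟩
  rw [← h2, smul_smul, inv_mul_cancel₀ ha0, one_smul]

omit [FiniteDimensional ℂ V] in
private theorem VLim_tor (L : V ≃L[ℂ] EN M) (hu : TMap X Λ u) :
    Pool.Agent.H62.EF.TorusMap (L.symm ⁻¹' X : Set (EN M)) Λ (fun x => u (L.symm x)) := by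
  constructor
  · intro x hx c hc
    show u (L.symm (c • x)) - u (L.symm x) ∈ Λ
    rw [map_smul]
    exact hu.smul _ hx c hc
  · intro x hx
    obtain ⟨v, hv, hve⟩ := hu.loc (L.symm x) hx
    refine ⟨fun y => v (L.symm y), ?_, ?_⟩
    · exact AnalyticAt.comp (g := v) (f := fun y => L.symm y) hv ((L.symm : EN M →L[ℂ] V).analyticAt x)
    · exact (L.symm.continuous.tendsto x).eventually hve

omit [FiniteDimensional ℂ V] in
/-- near a point which is not in `K` the curve does not move -/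
private theorem VLim_pt (hΛ : Lat Λ) (h : VData X K Λ u m Ω q d) (hc : GoodC X K Λ u q c) {H : ℂ → V} {z₀ : ℂ} (hH : ContinuousAt H z₀)
    (hX : ∀ z, H z ∈ X) (hu : ∀ z, u (H z) - c ∈ Λ) (hK : ∀ᶠ z in 𝓝 z₀, H z ∉ K) : ∀ᶠ z in 𝓝 z₀, ∃ a : ℂ, a ≠ 0 ∧ H z = a • H z₀ := by
  obtain ⟨σ, τ, hSC, h0, -⟩ := hc (H z₀) (hX z₀) (hu z₀)
  have hbd : ∀ᶠ p in 𝓝 (0 : ℂ × ℂ), σ p ∉ K ↔ p.2 = 0 := by
    rcases hSC.bd with h1 | h1
    · have h2 := h1.self_of_nhds
      rw [h0] at h2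
      exact absurd h2 hK.self_of_nhds
    · exact h1
  obtain ⟨δ, hδ, hd⟩ := hΛ.discrete
  have hτ : Tendsto (fun z => τ (H z)) (𝓝 z₀) (𝓝 0) := by
    have h1 : Tendsto τ (𝓝 (σ 0)) (𝓝 (τ (σ 0))) := hSC.chart.τ_an.continuousAt
    rw [hSC.chart.left.self_of_nhds, h0] at h1
    exact h1.comp hH
  have hsm : ∀ᶠ p in 𝓝 (0 : ℂ × ℂ), ‖p.1‖ < δ := by
    have h1 : Tendsto (fun p : ℂ × ℂ => ‖p.1‖) (𝓝 0) (𝓝 ‖(0 : ℂ × ℂ).1‖) := (continuous_fst.tendsto 0).norm
    rw [Prod.fst_zero, norm_zero] at h1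
    exact h1.eventually_lt_const hδ
  have hr : ∀ᶠ z in 𝓝 z₀, H z ∈ X → ∃ c : ℂ, c ≠ 0 ∧ H z = c • σ (τ (H z)) := by
    have h1 := hSC.chart.right
    rw [h0] at h1
    exact hH.eventually h1
  filter_upwards [hr, hK, hτ.eventually hbd, hτ.eventually hsm, hτ.eventually hSC.lift, hτ.eventually hSC.chart.σ_mem] with z h1 h2 h3 h4 h5 h6
  obtain ⟨a, ha, h7⟩ := h1 (hX z)
  have h8 : σ (τ (H z)) ∉ K := by
    intro h9
    apply h2
    rw [h7]
    exact h.opn.smul _ h9 a ha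
  have h9 : (τ (H z)).2 = 0 := h3.mp h8
  have h10 : (τ (H z)).1 ∈ Λ := by
    have h11 := h.tor.smul _ h6 a ha
    rw [← h7] at h11
    have h12 := Λ.sub_mem (Λ.sub_mem (hu z) h11) h5
    have h13 : u (H z) - c - (u (H z) - u (σ (τ (H z)))) - (u (σ (τ (H z))) - (c + (τ (H z)).1)) = (τ (H z)).1 := by ring
    rwa [h13] at h12
  have h11 : τ (H z) = 0 := Prod.ext (hd _ h10 h4) h9
  rw [h11, h0] at h7
  exact ⟨a, ha, h7⟩

theorem exists_bd (L : V ≃L[ℂ] EN M) (hΛ : Lat Λ) (h : VData X K Λ u m Ω q d) (hc : GoodC X K Λ u q c) {f : ℂ → V} (hf : ∀ z, HolP f z)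
    (hfK : ∀ z, f z ∈ K) (hfu : ∀ z, u (f z) - c ∈ Λ) (hne : ∃ z w, ¬ Pr (f z) (f w)) :
    ∃ H : ℂ → V, Differentiable ℂ H ∧ (∀ z, H z ∈ K ∧ u (H z) - c ∈ Λ) ∧ (∃ z w, ¬ Pr (H z) (H w)) ∧
      ∃ C : ℝ, ∀ z, fs (L (H z)) (deriv (fun ζ => L (H ζ)) z) ≤ C := by
  have hKX := h.opn.sub
  obtain ⟨F, hF, hFf⟩ := VLim_lift L h.surf hf (fun z => hKX (hfK z))
  have hFs : ∀ z, ∃ a : ℂ, a ≠ 0 ∧ L.symm (F z) = a • f z := by
    intro z
    obtain ⟨a, ha, h1⟩ := hFf z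
    refine ⟨a, ha, ?_⟩
    rw [h1, map_smul, ContinuousLinearEquiv.symm_apply_apply]
  have hGK : ∀ z, L.symm (F z) ∈ K := by
    intro z
    obtain ⟨a, ha, h1⟩ := hFs z
    rw [h1]
    exact h.opn.smul _ (hfK z) a ha
  have hGu : ∀ z, u (L.symm (F z)) - c ∈ Λ := by
    intro z
    obtain ⟨a, ha, h1⟩ := hFs z
    rw [h1]
    have h2 := Λ.add_mem (h.tor.smul _ (hKX (hfK z)) a ha) (hfu z)
    rwa [sub_add_sub_cancel] at h2
  have hPr : ∀ z, Pr (L.symm (F z)) (f z) := fun z => hFs z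
  have hX : Pool.Agent.H14.PP.IsCone (L.symm ⁻¹' X : Set (EN M)) := Pool.Agent.H36.BP.isCone_transport L h.surf
  have hX0 : ∀ x ∈ (L.symm ⁻¹' X : Set (EN M)), x ≠ 0 := fun x hx h => hX.zero_notMem (h ▸ hx)
  by_cases hL : ∃ C : ℝ, ∀ z, fs (F z) (deriv F z) ≤ C
  · obtain ⟨C, hC⟩ := hL
    refine ⟨fun z => L.symm (F z), (L.symm : EN M →L[ℂ] V).differentiable.comp hF, fun z => ⟨hGK z, hGu z⟩, ?_, C, ?_⟩
    · obtain ⟨z, w, hzw⟩ := hne
      exact ⟨z, w, fun h1 => hzw ((hPr z).symm.trans (h1.trans (hPr w)))⟩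
    · intro z
      have h1 : (fun ζ => L (L.symm (F ζ))) = F := by
        funext ζ
        rw [ContinuousLinearEquiv.apply_symm_apply]
      show fs (L (L.symm (F z))) (deriv (fun ζ => L (L.symm (F ζ))) z) ≤ C
      rw [h1, ContinuousLinearEquiv.apply_symm_apply]
      exact hC z
  push Not at hL
  have hF0 : ∀ z, F z ≠ 0 := fun z => hX0 _ (hKX (hGK z))
  have hbig : ∀ n : ℕ, ∃ z, 4 * ((n : ℝ) + 1) < fs (F z) (deriv F z) := fun n => hL _
  choose zc hzc using hbig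
  have hresc : ∀ n : ℕ, ∃ (z₀ : ℂ) (a : ℝ), 4 * ((n : ℝ) + 1) < a ∧
      fs (F (z₀ + zc n)) (deriv (fun ζ => F (z₀ + ((a⁻¹ : ℝ) : ℂ) * ζ + zc n)) 0) = 1 ∧
      ∀ ζ ∈ Metric.ball (0 : ℂ) (n + 1), fs (F (z₀ + ((a⁻¹ : ℝ) : ℂ) * ζ + zc n))
        (deriv (fun ζ => F (z₀ + ((a⁻¹ : ℝ) : ℂ) * ζ + zc n)) ζ) ≤ 2 := by
    intro n
    have hd : Differentiable ℂ (fun z => F (z + zc n)) := hF.comp (differentiable_id.add_const _)
    refine Pool.Agent.H62.EF.rescale_fs hd (fun z => hF0 _) n ?_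
    rw [deriv_comp_add_const]
    simpa using hzc n
  choose w₀ a ha h1 h2 using hresc
  set G : ℕ → ℂ → EN M := fun n ζ => F (w₀ n + (((a n)⁻¹ : ℝ) : ℂ) * ζ + zc n) with hGdef
  have hGd : ∀ n, Differentiable ℂ (G n) := by
    intro n
    exact hF.comp (((differentiable_id.const_mul _).const_add _).add_const _)
  have hGK' : ∀ n ζ, L.symm (G n ζ) ∈ K := fun n ζ => hGK _
  have hGX : ∀ n ζ, G n ζ ∈ (L.symm ⁻¹' X : Set (EN M)) := fun n ζ => hKX (hGK _)
  have hG1 : ∀ n, fs (G n 0) (deriv (G n) 0) = 1 := by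
    intro n
    have := h1 n
    rw [hGdef]
    simpa only [mul_zero, add_zero] using this
  set 𝒰 : Ultrafilter ℕ := hyperfilter ℕ with h𝒰
  have hle : (𝒰 : Filter ℕ) ≤ atTop := Nat.hyperfilter_le_atTop
  have hρ : Tendsto (fun n : ℕ => (n : ℝ) + 1) 𝒰 atTop :=
    (tendsto_atTop_add_const_right _ _ tendsto_natCast_atTop_atTop).mono_left hle
  obtain ⟨H, hH, hHX, hpr, hfs, hloc⟩ := Pool.Agent.H62.EF.limit_curves hX (L := 2) two_pos 𝒰 G (fun n : ℕ => (n : ℝ) + 1) hρ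
    (Eventually.of_forall fun n => ⟨(hGd n).differentiableOn, fun z hz => ⟨hGX n z, h2 n z hz⟩⟩)
  have hH0 : ∀ z, H z ≠ 0 := fun z => hX0 _ (hHX z)
  have hone : fs (H 0) (deriv H 0) = 1 := by
    have h3 := hfs 0
    simp only [hG1] at h3
    exact tendsto_nhds_unique h3 tendsto_const_nhds
  have hnc : ¬ ∀ z w, ∃ a : ℂ, H z = a • H w := by
    intro hcon
    obtain ⟨b, hb⟩ := Pool.Agent.H36.BP.Brody_deriv_line (hH 0) (fun z => hcon z 0)
    have h3 : wd (H 0) (deriv H 0) = 0 := (Pool.Agent.H36.BP.wd_eq_zero (hH0 0)).mpr ⟨b, hb⟩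
    unfold fs at hone
    rw [h3, zero_div] at hone
    exact zero_ne_one hone
  have hHu : ∀ ζ, u (L.symm (H ζ)) - c ∈ Λ := fun ζ =>
    Pool.Agent.EG.mem_fibre_of_tendsto hX (VLim_tor L h.tor) hΛ (x := fun n => G n ζ) (c := fun _ => c)
      (Eventually.of_forall fun n => ⟨hGX n ζ, hGu _⟩) (hHX ζ) (hpr ζ) tendsto_const_nhds
  have hHL : ∀ ζ, fs (H ζ) (deriv H ζ) ≤ 2 := by
    intro ζ
    refine le_of_tendsto (hfs ζ) ?_
    have h3 : ∀ᶠ n : ℕ in (𝒰 : Filter ℕ), ‖ζ‖ < (n : ℝ) + 1 := hρ.eventually (eventually_gt_atTop _)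
    filter_upwards [h3] with n hn
    exact h2 n ζ (by rwa [mem_ball_zero_iff])
  have hHd : Differentiable ℂ (fun z => L.symm (H z)) := (L.symm : EN M →L[ℂ] V).differentiable.comp hH
  have hHK : ∀ z, L.symm (H z) ∈ K := by
    intro z₀
    by_contra hz₀
    obtain ⟨r, φ, ψ, hr, hφ, hψ, hψH, hlim⟩ := hloc z₀
    have hmem : z₀ ∈ Metric.ball z₀ r := Metric.mem_ball_self hr
    have hlim' : TendstoLocallyUniformlyOn (fun n z => L.symm (φ n z)) (fun z => L.symm (ψ z)) (𝒰 : Filter ℕ) (Metric.ball z₀ r) :=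
      (L.symm : EN M →L[ℂ] V).uniformContinuous.comp_tendstoLocallyUniformlyOn hlim
    have hψK : ∀ z ∈ Metric.ball z₀ r, (L.symm (ψ z) ∈ K ↔ L.symm (H z) ∈ K) := by
      intro z hz
      obtain ⟨b, hb, h3⟩ := hψH z hz
      rw [h3, map_smul]
      constructor
      · intro h4
        have h5 := h.opn.smul _ h4 _ (inv_ne_zero hb)
        rwa [smul_smul, inv_mul_cancel₀ hb, one_smul] at h5
      · intro h4
        exact h.opn.smul _ h4 b hb
    have hne0 : L.symm (ψ z₀) ≠ 0 := by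
      obtain ⟨b, hb, h3⟩ := hψH z₀ hmem
      rw [h3, map_smul]
      refine smul_ne_zero hb fun h4 => hH0 z₀ ?_
      simpa using h4
    have key := Pool.Agent.H36.LB.hur_openPart h.surf.closed h.opn (l := (𝒰 : Filter ℕ)) inferInstance hr (F := fun n z => L.symm (φ n z))
      (H := fun z => L.symm (ψ z)) (by
        filter_upwards [hφ] with n hn
        refine ⟨(L.symm : EN M →L[ℂ] V).differentiable.comp_differentiableOn hn.1, fun z hz => ?_⟩
        obtain ⟨b, hb, h3⟩ := hn.2 z hz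
        rw [h3, map_smul]
        exact h.opn.smul _ (hGK' n z) b hb) ((L.symm : EN M →L[ℂ] V).differentiable.comp_differentiableOn hψ) hlim' hne0
      (fun h3 => hz₀ ((hψK z₀ hmem).mp h3))
    have key' : ∀ᶠ z in 𝓝 z₀, L.symm (H z) ∉ K := by
      filter_upwards [key, Metric.isOpen_ball.mem_nhds hmem] with z h3 h4 h5
      exact h3 ((hψK z h4).mpr h5)
    have h3 := VLim_pt hΛ h hc (H := fun z => L.symm (H z)) (z₀ := z₀) hHd.continuous.continuousAt (fun z => hHX z) hHu key'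
    refine hnc (VLim_ident hH hH0 (ζ₀ := z₀) ?_)
    filter_upwards [h3] with z h4
    obtain ⟨b, hb, h5⟩ := h4
    refine ⟨b, L.symm.injective ?_⟩
    rw [map_smul]
    exact h5
  refine ⟨fun z => L.symm (H z), hHd, fun z => ⟨hHK z, hHu z⟩, ?_, 2, ?_⟩
  · by_contra hcon
    push Not at hcon
    apply hnc
    intro z w
    obtain ⟨b, hb, h3⟩ := hcon z w
    refine ⟨b, L.symm.injective ?_⟩
    rw [map_smul]
    exact h3
  · intro z
    have h3 : (fun ζ => L (L.symm (H ζ))) = H := by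
      funext ζ
      rw [ContinuousLinearEquiv.apply_symm_apply]
    show fs (L (L.symm (H z))) (deriv (fun ζ => L (L.symm (H ζ))) z) ≤ 2
    rw [h3, ContinuousLinearEquiv.apply_symm_apply]
    exact hHL z

end Pool.Agent.H17V
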